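import Mathlib

/-! # Denjoy's theorem for lifts of circle homeomorphisms with a distortion bound -/

set_option autoImplicit false

open Set Filter Topology Function

namespace Clo

/-- Total length of intervals which are disjoint modulo one. -/
theorem packing {ι : Type*} (s : Finset ι) (a b : ι → ℝ) (hab : ∀ i ∈ s, a i ≤ b i)
    (hdis : ∀ i ∈ s, ∀ j ∈ s, ∀ m : ℤ, (i ≠ j ∨ m ≠ 0) → b i < a j + m ∨ b j + m < a i) :
    ∑ i ∈ s, (b i - a i) ≤ 1 := by
  classical
  rcases s.eq_empty_or_nonempty with rfl | hs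
  · simp
  obtain ⟨i0, hi0, hmin⟩ := s.exists_min_image (fun i => Int.fract (a i)) hs
  set A : ι → ℝ := fun i => a i - ⌊a i⌋ with hA
  set B : ι → ℝ := fun i => b i - ⌊a i⌋ with hB
  have hAB : ∀ i ∈ s, A i ≤ B i := fun i hi => by
    simp only [hA, hB]
    have := hab i hi
    linarith
  have hA0 : ∀ i, 0 ≤ A i := fun i => Int.fract_nonneg (a i)
  have hA1 : ∀ i, A i < 1 := fun i => Int.fract_lt_one (a i)
  have hBlt : ∀ j ∈ s, B j < A i0 + 1 := by
    intro j hj
    have h1 := hdis j hj i0 hi0 (⌊a j⌋ - ⌊a i0⌋ + 1) (by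
      by_cases h : j = i0
      · right; rw [h]; omega
      · left; exact h)
    push_cast at h1
    simp only [hA, hB]
    rcases h1 with h1 | h1
    · linarith
    · exfalso
      have h2 := hA1 j
      have h3 := hA0 i0
      have h4 := hAB i0 hi0
      simp only [hA, hB] at h2 h3 h4
      linarith
  have hdisj : (s : Set ι).PairwiseDisjoint (fun i => Icc (A i) (B i)) := by
    intro i hi j hj hij
    rw [Function.onFun, Set.disjoint_left]
    intro x hx hx'
    have h1 := hdis i hi j hj (⌊a i⌋ - ⌊a j⌋) (Or.inl hij)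
    push_cast at h1
    simp only [hA, hB] at hx hx'
    obtain ⟨h2, h3⟩ := hx
    obtain ⟨h4, h5⟩ := hx'
    rcases h1 with h1 | h1 <;> linarith
  have hsub : (⋃ i ∈ s, Icc (A i) (B i)) ⊆ Icc (A i0) (A i0 + 1) := by
    intro x hx
    simp only [mem_iUnion] at hx
    obtain ⟨i, hi, hx1, hx2⟩ := hx
    exact ⟨(hmin i hi).trans hx1, hx2.trans (hBlt i hi).le⟩
  have h1 := MeasureTheory.measure_mono (μ := MeasureTheory.volume) hsub
  rw [MeasureTheory.measure_biUnion_finset hdisj (fun i _ => measurableSet_Icc),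
    Real.volume_Icc] at h1
  simp only [Real.volume_Icc] at h1
  rw [← ENNReal.ofReal_sum_of_nonneg (fun i hi => by have := hAB i hi; linarith)] at h1
  rw [ENNReal.ofReal_le_ofReal_iff (by linarith)] at h1
  calc ∑ i ∈ s, (b i - a i) = ∑ i ∈ s, (B i - A i) :=
        Finset.sum_congr rfl fun i _ => by simp only [hA, hB]; ring
    _ ≤ 1 := by linarith

/-- Closest returns of an irrational rotation. -/
theorem closest {ρ : ℝ} (hρ : Irrational ρ) (N : ℕ) : ∃ q : ℕ, N < q ∧ ∃ m : ℤ,
    |(q : ℝ) * ρ - m| < 1 ∧ ∀ j : ℕ, 0 < j → j < q → ∀ m' : ℤ,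
      |(q : ℝ) * ρ - m| < |(j : ℝ) * ρ - m'| := by
  have hpos : ∀ j : ℕ, 0 < j → 0 < |(j : ℝ) * ρ - round ((j : ℝ) * ρ)| := by
    intro j hj
    rw [abs_pos, sub_ne_zero]
    intro h
    have h1 : Irrational ((j : ℝ) * ρ) := by
      exact hρ.natCast_mul (by omega)
    exact h1.ne_int _ h
  have hδ : ∃ δ : ℝ, 0 < δ ∧ δ ≤ 1 ∧ ∀ j : ℕ, 0 < j → j ≤ N →
      δ ≤ |(j : ℝ) * ρ - round ((j : ℝ) * ρ)| := by
    induction N with
    | zero => exact ⟨1, one_pos, le_rfl, fun j hj hj' => by omega⟩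
    | succ N ih =>
      obtain ⟨δ, h0, h1, h2⟩ := ih
      refine ⟨min δ |((N + 1 : ℕ) : ℝ) * ρ - round (((N + 1 : ℕ) : ℝ) * ρ)|,
        lt_min h0 (hpos _ (by omega)), (min_le_left _ _).trans h1, fun j hj hj' => ?_⟩
      rcases Nat.lt_or_ge N j with h | h
      · have : j = N + 1 := by omega
        rw [this]
        exact min_le_right _ _
      · exact (min_le_left _ _).trans (h2 j hj h)
  obtain ⟨δ, hδ0, hδ1, hδ⟩ := hδ
  have hex : ∃ q : ℕ, 0 < q ∧ |(q : ℝ) * ρ - round ((q : ℝ) * ρ)| < δ := by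
    obtain ⟨n, hn⟩ := exists_nat_gt (1 / δ)
    have hn0 : 0 < n := by
      have : (0 : ℝ) < n := lt_trans (by positivity) hn
      exact_mod_cast this
    obtain ⟨k, hk, -, hk2⟩ := Real.exists_nat_abs_mul_sub_round_le ρ hn0
    refine ⟨k, hk, lt_of_le_of_lt hk2 ?_⟩
    rw [div_lt_iff₀ (by positivity)]
    rw [div_lt_iff₀ hδ0] at hn
    nlinarith
  classical
  set q := Nat.find hex with hq
  obtain ⟨hq0, hqδ⟩ := Nat.find_spec hex
  refine ⟨q, ?_, round ((q : ℝ) * ρ), lt_of_lt_of_le hqδ hδ1, ?_⟩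
  · by_contra h
    push Not at h
    exact absurd (hδ q hq0 h) (not_le.2 hqδ)
  · intro j hj hjq m'
    have h1 := Nat.find_min hex hjq
    push Not at h1
    have h2 := h1 hj
    have h3 := round_le ((j : ℝ) * ρ) m'
    exact lt_of_lt_of_le hqδ (h2.trans h3)

theorem zpow_semi {f : CircleDeg1Liftˣ} {h : CircleDeg1Lift} {ρ : ℝ}
    (hs : ∀ x, h (f x) = h x + ρ) (n : ℤ) : ∀ x, h ((f ^ n : CircleDeg1Liftˣ) x) = h x + n * ρ := by
  have hinv : ∀ x, h ((f⁻¹ : CircleDeg1Liftˣ) x) = h x - ρ := by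
    intro x
    have h1 := hs ((f⁻¹ : CircleDeg1Liftˣ) x)
    rw [CircleDeg1Lift.units_apply_inv_apply] at h1
    linarith
  induction n with
  | zero => intro x; simp
  | succ n ih =>
    intro x
    rw [zpow_add_one, Units.val_mul, CircleDeg1Lift.mul_apply, ih, hs]
    push_cast
    ring
  | pred n ih =>
    intro x
    rw [zpow_sub_one, Units.val_mul, CircleDeg1Lift.mul_apply, ih, hinv]
    push_cast
    ring

theorem unit_strictMono (f : CircleDeg1Liftˣ) : StrictMono f := by
  rw [← CircleDeg1Lift.coe_toOrderIso]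
  exact (CircleDeg1Lift.toOrderIso f).strictMono

/-- The distortion property. -/
def Distort (C : ℝ) (f : ℝ → ℝ) : Prop :=
  ∀ u v a b c d : ℝ, u ≤ a → a < b → b ≤ v → u ≤ c → c < d → d ≤ v →
    (f b - f a) * (d - c) ≤ Real.exp (C * (v - u)) * ((f d - f c) * (b - a))

theorem denjoy {f : CircleDeg1Liftˣ} {C : ℝ} (hC : 0 ≤ C) (hD : Distort C f) {ρ : ℝ}
    (hρ : Irrational ρ) {h : CircleDeg1Lift} (hs : ∀ x, h (f x) = h x + ρ) : StrictMono h := by
  refine h.strictMono_iff_injective.2 ?_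
  by_contra hinj
  obtain ⟨a, b, hab, heq⟩ : ∃ a b, a < b ∧ h a = h b := by
    rw [Function.Injective] at hinj
    push Not at hinj
    obtain ⟨x, y, hxy, hne⟩ := hinj
    rcases lt_or_gt_of_ne hne with h1 | h1
    · exact ⟨x, y, h1, hxy⟩
    · exact ⟨y, x, h1, hxy.symm⟩
  have hz := zpow_semi hs
  set F : ℤ → ℝ → ℝ := fun n x => (f ^ n : CircleDeg1Liftˣ) x with hF
  have hFm : ∀ n, StrictMono (F n) := fun n => unit_strictMono _
  have hF1 : ∀ n x, F (n + 1) x = f (F n x) := fun n x => by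
    simp only [hF]
    rw [add_comm, zpow_add, zpow_one, Units.val_mul, CircleDeg1Lift.mul_apply]
  have hhF : ∀ n x, h (F n x) = h x + n * ρ := fun n x => hz n x
  set ℓ : ℤ → ℝ := fun n => F n b - F n a with hℓ
  have hℓ0 : ∀ n, 0 < ℓ n := fun n => sub_pos.2 (hFm n hab)
  -- sums of lengths
  have hsum : ∀ S : Finset ℤ, ∑ n ∈ S, ℓ n ≤ 1 := by
    intro S
    refine packing S (fun n => F n a) (fun n => F n b) (fun n _ => (hFm n hab).le) ?_
    intro i _ j _ m hijm
    by_contra hcon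
    push Not at hcon
    obtain ⟨h1, h2⟩ := hcon
    have h3 := h.monotone h1
    have h4 := h.monotone h2
    rw [h.map_add_int, hhF, hhF, ← heq] at h3
    rw [h.map_add_int, hhF, hhF, ← heq] at h4
    have h5 : ((i - j : ℤ) : ℝ) * ρ = m := by
      push_cast
      linarith
    by_cases hij : i = j
    · rw [hij, sub_self, Int.cast_zero, zero_mul] at h5
      have h6 : m = 0 := by exact_mod_cast h5.symm
      rcases hijm with h7 | h7
      · exact h7 hij
      · exact h7 h6
    · have h6 : Irrational (((i - j : ℤ) : ℝ) * ρ) := hρ.intCast_mul (sub_ne_zero.2 hij)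
      exact h6.ne_int _ h5
  have hℓ1 : ∀ n, ℓ n ≤ 1 := fun n => by
    have := hsum {n}
    simpa using this
  have hlim : Tendsto (fun n : ℕ => ℓ n) atTop (𝓝 0) := by
    have hsm : Summable (fun n : ℕ => ℓ n) := by
      refine summable_of_sum_range_le (c := 1) (fun n => (hℓ0 _).le) fun n => ?_
      have := hsum ((Finset.range n).image (fun i : ℕ => (i : ℤ)))
      rwa [Finset.sum_image (fun x _ y _ hxy => by exact_mod_cast hxy)] at this
    exact hsm.tendsto_atTop_zero
  set κ : ℝ := ℓ 0 ^ 2 / Real.exp C with hκ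
  have hκ0 : 0 < κ := div_pos (pow_pos (hℓ0 0) 2) (Real.exp_pos _)
  obtain ⟨N, hN⟩ := eventually_atTop.1 (hlim.eventually (gt_mem_nhds hκ0))
  obtain ⟨q, hNq, m, hm1, hclose⟩ := closest hρ N
  set δ : ℝ := |(q : ℝ) * ρ - m| with hδ
  -- the hulls
  set u : ℕ → ℝ := fun i => min (F i a) (F (i - q) a + m) with hu
  set v : ℕ → ℝ := fun i => max (F i b) (F (i - q) b + m) with hv
  have hhu : ∀ i, h (u i) = h a + i * ρ + min 0 (-((q : ℝ) * ρ - m)) := by
    intro i
    simp only [hu]
    rw [h.monotone.map_min, h.map_add_int, hhF, hhF]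
    push_cast
    rw [← min_add_add_left]
    congr 1
    · ring
    · ring
  have hhv : ∀ i, h (v i) = h a + i * ρ + max 0 (-((q : ℝ) * ρ - m)) := by
    intro i
    simp only [hv]
    rw [h.monotone.map_max, h.map_add_int, hhF, hhF, ← heq]
    push_cast
    rw [← max_add_add_left]
    congr 1
    · ring
    · ring
  have hmm : max 0 (-((q : ℝ) * ρ - m)) - min 0 (-((q : ℝ) * ρ - m)) = δ := by
    rw [max_sub_min_eq_abs, hδ, sub_zero, abs_neg]
  have huv : ∀ i, u i ≤ v i := fun i =>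
    (min_le_left _ _).trans (((hFm _ hab).le).trans (le_max_left _ _))
  have hK : ∑ i ∈ Finset.range q, (v i - u i) ≤ 1 := by
    refine packing (Finset.range q) u v (fun i _ => huv i) ?_
    intro i hi j hj m' hijm
    rw [Finset.mem_range] at hi hj
    by_contra hcon
    push Not at hcon
    obtain ⟨h1, h2⟩ := hcon
    have h3 := h.monotone h1
    have h4 := h.monotone h2
    rw [h.map_add_int, hhu, hhv] at h3
    rw [h.map_add_int, hhu, hhv] at h4
    have h5 : |((i : ℝ) - j) * ρ - m'| ≤ δ := by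
      rw [abs_le]
      constructor
      · linarith
      · linarith
    rcases lt_trichotomy i j with h6 | h6 | h6
    · have h7 := hclose (j - i) (by omega) (by omega) (-m')
      rw [Nat.cast_sub h6.le] at h7
      push_cast at h7
      have h8 : |((j : ℝ) - i) * ρ - -m'| = |((i : ℝ) - j) * ρ - m'| := by
        rw [← abs_neg]; congr 1; ring
      rw [h8] at h7
      exact absurd h5 (not_le.2 h7)
    · rw [h6, sub_self, zero_mul, zero_sub, abs_neg] at h5
      have h7 : m' ≠ 0 := by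
        rcases hijm with h8 | h8
        · exact absurd h6 h8
        · exact h8
      have h8 : (1 : ℝ) ≤ |(m' : ℝ)| := by
        rw [← Int.cast_abs]
        exact_mod_cast Int.one_le_abs h7
      linarith
    · have h7 := hclose (i - j) (by omega) (by omega) m'
      rw [Nat.cast_sub h6.le] at h7
      exact absurd h5 (not_le.2 h7)
  -- the distortion estimate
  have hstep : ∀ n : ℕ, n ≤ q → ℓ (n - q) * ℓ 0 ≤
      Real.exp (C * ∑ i ∈ Finset.range n, (v i - u i)) * (ℓ n * ℓ (-q)) := by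
    intro n
    induction n with
    | zero =>
      intro _
      simp only [Nat.cast_zero, zero_sub, Finset.range_zero, Finset.sum_empty, mul_zero,
        Real.exp_zero, one_mul]
      rw [mul_comm]
    | succ n ih =>
      intro hn
      have ih' := ih (by omega)
      have h1 := hD (u n) (v n) (F (n - q) a + m) (F (n - q) b + m) (F n a) (F n b)
        (min_le_right _ _) (by have := hFm (n - q) hab; linarith) (le_max_right _ _)
        (min_le_left _ _) (hFm n hab) (le_max_left _ _)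
      rw [CircleDeg1Lift.map_add_int, CircleDeg1Lift.map_add_int, ← hF1, ← hF1, ← hF1, ← hF1] at h1
      have h2 : ℓ ((n : ℤ) - q + 1) * ℓ n ≤
          Real.exp (C * (v n - u n)) * (ℓ (n + 1) * ℓ (n - q)) := by
        have e1 : F ((n : ℤ) - q + 1) b + m - (F ((n : ℤ) - q + 1) a + m) =
          ℓ ((n : ℤ) - q + 1) := by simp only [hℓ]; ring
        have e2 : F ((n : ℤ) - q) b + m - (F ((n : ℤ) - q) a + m) = ℓ ((n : ℤ) - q) := by
          simp only [hℓ]; ring
        rw [e1, e2] at h1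
        exact h1
      have e3 : ((n + 1 : ℕ) : ℤ) - q = (n : ℤ) - q + 1 := by push_cast; ring
      have e4 : ((n + 1 : ℕ) : ℤ) = (n : ℤ) + 1 := by push_cast; ring
      rw [e3, e4, Finset.sum_range_succ, mul_add, Real.exp_add]
      refine le_of_mul_le_mul_right ?_ (hℓ0 n)
      calc ℓ ((n : ℤ) - q + 1) * ℓ 0 * ℓ n = (ℓ ((n : ℤ) - q + 1) * ℓ n) * ℓ 0 := by ring
        _ ≤ (Real.exp (C * (v n - u n)) * (ℓ (n + 1) * ℓ (n - q))) * ℓ 0 :=
            mul_le_mul_of_nonneg_right h2 (hℓ0 0).le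
        _ = (Real.exp (C * (v n - u n)) * ℓ (n + 1)) * (ℓ (n - q) * ℓ 0) := by ring
        _ ≤ (Real.exp (C * (v n - u n)) * ℓ (n + 1)) *
            (Real.exp (C * ∑ i ∈ Finset.range n, (v i - u i)) * (ℓ n * ℓ (-q))) :=
            mul_le_mul_of_nonneg_left ih'
              (mul_nonneg (Real.exp_pos _).le (hℓ0 _).le)
        _ = _ := by ring
  have h1 := hstep q le_rfl
  rw [sub_self] at h1
  have h2 : Real.exp (C * ∑ i ∈ Finset.range q, (v i - u i)) ≤ Real.exp C := by
    apply Real.exp_le_exp.2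
    nlinarith
  have h3 : ℓ 0 * ℓ 0 ≤ Real.exp C * ℓ q := by
    refine h1.trans ?_
    have h4 : ℓ q * ℓ (-q) ≤ ℓ q := by
      have := hℓ1 (-q)
      have := hℓ0 q
      nlinarith
    exact mul_le_mul h2 h4 (mul_nonneg (hℓ0 _).le (hℓ0 _).le) (Real.exp_pos _).le
  have h4 := hN q hNq.le
  rw [hκ, lt_div_iff₀ (Real.exp_pos _)] at h4
  nlinarith

end Clo
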