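import Pool.Agent.Lib.MP_2f875b_anF.Scal
import Pool.Agent.Lib.MP_2f875b_anF.Denjoy

/-! # The time one map of a periodic scalar equation -/

set_option autoImplicit false

open Set Filter Topology NNReal

namespace Clo

/-- A function on the torus with a bounded, Lipschitz derivative in the second variable. -/
structure Per (g g' : ℝ → ℝ → ℝ) (L : ℝ≥0) (L' G : ℝ) : Prop where
  lip : LipschitzWith L (fun q : ℝ × ℝ => g q.1 q.2)
  bdd : ∀ t y, |g t y| ≤ G
  per1 : ∀ t y, g (t + 1) y = g t y
  per2 : ∀ t y, g t (y + 1) = g t y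
  der : ∀ t y, HasDerivAt (g t) (g' t y) y
  lip' : ∀ t y z, |g' t y - g' t z| ≤ L' * |y - z|

variable {g g' : ℝ → ℝ → ℝ} {L : ℝ≥0} {L' G : ℝ}

/-- The solution with value `x` at time `0`. -/
noncomputable def phi (P : Per g g' L L' G) (x : ℝ) : ℝ → ℝ :=
  Classical.choose (sol_exists P.lip P.bdd 0 0 x)

theorem phi_zero (P : Per g g' L L' G) (x : ℝ) : phi P x 0 = x :=
  (Classical.choose_spec (sol_exists P.lip P.bdd 0 0 x)).1

theorem phi_sol (P : Per g g' L L' G) (x : ℝ) : Sol g 0 (phi P x) :=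
  (Classical.choose_spec (sol_exists P.lip P.bdd 0 0 x)).2

theorem eq_phi (P : Per g g' L L' G) {y : ℝ → ℝ} (hy : Sol g 0 y) : y = phi P (y 0) :=
  Sol.unique P.lip hy (phi_sol P _) (phi_zero P _).symm

theorem phi_lt (P : Per g g' L L' G) {x z : ℝ} (h : x < z) (t : ℝ) : phi P x t < phi P z t :=
  Sol.lt P.lip (phi_sol P x) (phi_sol P z) (t0 := 0) (by rwa [phi_zero, phi_zero]) t

theorem phi_le (P : Per g g' L L' G) {x z : ℝ} (h : x ≤ z) (t : ℝ) : phi P x t ≤ phi P z t := by
  rcases h.eq_or_lt with rfl | h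
  · exact le_rfl
  · exact (phi_lt P h t).le

theorem sol_add_int (P : Per g g' L L' G) {y : ℝ → ℝ} (hy : Sol g 0 y) (m : ℤ) :
    Sol g 0 (fun t => y t + m) := by
  have hper : ∀ (m : ℤ) (t y : ℝ), g t (y + m) = g t y := by
    intro m t y
    have h1 : Function.Periodic (g t) 1 := fun y => P.per2 t y
    simpa using h1.int_mul m y
  intro t
  have h1 := (hy t).add_const (m : ℝ)
  rw [← hper m] at h1
  exact h1

theorem sol_shift (P : Per g g' L L' G) {y : ℝ → ℝ} (hy : Sol g 0 y) (n : ℤ) :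
    Sol g 0 (fun t => y (t + n)) := by
  have hper : ∀ (m : ℤ) (t y : ℝ), g (t + m) y = g t y := by
    intro m t y
    have h1 : Function.Periodic (fun t => g t y) 1 := fun t => P.per1 t y
    simpa using h1.int_mul m t
  intro t
  have h1 := (hy (t + n)).comp_add_const t n
  rw [hper] at h1
  exact h1

theorem phi_add_one (P : Per g g' L L' G) (x t : ℝ) : phi P (x + 1) t = phi P x t + 1 := by
  have h1 := eq_phi P (sol_add_int P (phi_sol P x) 1)
  have h2 := congrFun h1 t
  simp only [phi_zero, Int.cast_one] at h2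
  exact h2.symm

theorem phi_phi (P : Per g g' L L' G) (x t : ℝ) (n : ℤ) :
    phi P (phi P x n) t = phi P x (t + n) := by
  have h1 := eq_phi P (sol_shift P (phi_sol P x) n)
  have h2 := congrFun h1 t
  simp only [zero_add] at h2
  exact h2.symm

/-- The time one map as a lift of degree one. -/
noncomputable def lift (P : Per g g' L L' G) : CircleDeg1Lift where
  toFun x := phi P x 1
  monotone' := fun _ _ h => phi_le P h 1
  map_add_one' := fun x => phi_add_one P x 1

theorem lift_apply (P : Per g g' L L' G) (x : ℝ) : lift P x = phi P x 1 := rfl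

theorem lift_bij (P : Per g g' L L' G) : Function.Bijective (lift P) := by
  constructor
  · intro x z h
    rcases lt_trichotomy x z with h1 | h1 | h1
    · exact absurd h (phi_lt P h1 1).ne
    · exact h1
    · exact absurd h.symm (phi_lt P h1 1).ne
  · intro z
    obtain ⟨y, hy1, hy⟩ := sol_exists P.lip P.bdd 0 1 z
    refine ⟨y 0, ?_⟩
    rw [lift_apply, ← eq_phi P hy, hy1]

theorem exists_unit (P : Per g g' L L' G) : ∃ f : CircleDeg1Liftˣ, ∀ x, f x = phi P x 1 := by
  obtain ⟨f, hf⟩ := CircleDeg1Lift.isUnit_iff_bijective.2 (lift_bij P)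
  exact ⟨f, fun x => by rw [hf]; rfl⟩

theorem phi_nat (P : Per g g' L L' G) {f : CircleDeg1Liftˣ} (hf : ∀ x, f x = phi P x 1)
    (n : ℕ) (x : ℝ) : (f : CircleDeg1Lift)^[n] x = phi P x n := by
  induction n with
  | zero => simp [phi_zero]
  | succ n ih =>
    rw [Function.iterate_succ_apply', ih, hf]
    have := phi_phi P x 1 n
    rw [Int.cast_natCast] at this
    rw [this]
    congr 1
    push_cast
    ring

/-- Distortion of the time one map. -/
theorem phi_distort (P : Per g g' L L' G) (hL' : 0 ≤ L') :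
    Distort (L' * Real.exp L) (fun x => phi P x 1) := by
  intro u v a b c d hua hab hbv huc hcd hdv
  set C : ℝ := L' * Real.exp L with hC
  have hslope : ∀ x z : ℝ, x < z → ∀ t, ∃ ξ ∈ Ioo x z, g t z - g t x = g' t ξ * (z - x) := by
    intro x z hxz t
    obtain ⟨ξ, hξ, h1⟩ := exists_hasDerivAt_eq_slope (g t) (g' t) hxz
      (fun y _ => (P.der t y).continuousAt.continuousWithinAt) (fun y _ => P.der t y)
    refine ⟨ξ, hξ, ?_⟩
    rw [h1, div_mul_cancel₀ _ (sub_ne_zero.2 hxz.ne')]
  set D1 : ℝ → ℝ := fun t => phi P b t - phi P a t with hD1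
  set D2 : ℝ → ℝ := fun t => phi P d t - phi P c t with hD2
  have hp1 : ∀ t, 0 < D1 t := fun t => sub_pos.2 (phi_lt P hab t)
  have hp2 : ∀ t, 0 < D2 t := fun t => sub_pos.2 (phi_lt P hcd t)
  have hd1 : ∀ t, HasDerivAt D1 (g t (phi P b t) - g t (phi P a t)) t := fun t => by
    have := (phi_sol P b t).fun_sub (phi_sol P a t)
    simpa using this
  have hd2 : ∀ t, HasDerivAt D2 (g t (phi P d t) - g t (phi P c t)) t := fun t => by
    have := (phi_sol P d t).fun_sub (phi_sol P c t)
    simpa using this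
  set R : ℝ → ℝ := fun t => Real.log (D1 t) - Real.log (D2 t) - C * (v - u) * t with hR
  have hRd : ∀ t, HasDerivAt R ((g t (phi P b t) - g t (phi P a t)) / D1 t -
      (g t (phi P d t) - g t (phi P c t)) / D2 t - C * (v - u) * 1) t := fun t =>
    (((hd1 t).log (hp1 t).ne').fun_sub ((hd2 t).log (hp2 t).ne')).fun_sub
      ((hasDerivAt_id' t).const_mul _)
  have hanti : AntitoneOn R (Icc 0 1) := by
    refine antitoneOn_of_deriv_nonpos (convex_Icc 0 1)
      (fun t _ => (hRd t).continuousAt.continuousWithinAt)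
      (fun t _ => (hRd t).differentiableAt.differentiableWithinAt) ?_
    intro t ht
    rw [interior_Icc] at ht
    rw [(hRd t).deriv]
    obtain ⟨ξ1, hξ1, e1⟩ := hslope _ _ (phi_lt P hab t) t
    obtain ⟨ξ2, hξ2, e2⟩ := hslope _ _ (phi_lt P hcd t) t
    rw [e1, e2]
    have e3 : g' t ξ1 * (phi P b t - phi P a t) / D1 t = g' t ξ1 :=
      mul_div_cancel_right₀ _ (hp1 t).ne'
    have e4 : g' t ξ2 * (phi P d t - phi P c t) / D2 t = g' t ξ2 :=
      mul_div_cancel_right₀ _ (hp2 t).ne'
    rw [e3, e4]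
    have h1 : |ξ1 - ξ2| ≤ phi P v t - phi P u t := by
      have k1 := phi_le P hua t
      have k2 := phi_le P hbv t
      have k3 := phi_le P huc t
      have k4 := phi_le P hdv t
      rw [abs_le]
      constructor
      · linarith [hξ1.1, hξ1.2, hξ2.1, hξ2.2]
      · linarith [hξ1.1, hξ1.2, hξ2.1, hξ2.2]
    have huv : u ≤ v := by linarith
    have h2 : phi P v t - phi P u t ≤ (v - u) * Real.exp L := by
      have h3 := Sol.gron P.lip (phi_sol P v) (phi_sol P u) (a := 0) ht.1.le
      rw [phi_zero, phi_zero, abs_of_nonneg (sub_nonneg.2 huv), sub_zero,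
        abs_of_nonneg (sub_nonneg.2 (phi_le P huv t))] at h3
      refine h3.trans (mul_le_mul_of_nonneg_left ?_ (sub_nonneg.2 huv))
      apply Real.exp_le_exp.2
      have : (0 : ℝ) ≤ L := L.2
      nlinarith [ht.2]
    have h4 : g' t ξ1 - g' t ξ2 ≤ C * (v - u) := by
      refine (le_abs_self _).trans ((P.lip' t ξ1 ξ2).trans ?_)
      calc L' * |ξ1 - ξ2| ≤ L' * ((v - u) * Real.exp L) :=
            mul_le_mul_of_nonneg_left (h1.trans h2) hL'
        _ = C * (v - u) := by rw [hC]; ring
    linarith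
  have h5 := hanti (left_mem_Icc.2 zero_le_one) (right_mem_Icc.2 zero_le_one) zero_le_one
  simp only [hR, hD1, hD2, phi_zero, mul_zero, sub_zero, mul_one] at h5
  have q1 : 0 < b - a := sub_pos.2 hab
  have q2 : 0 < d - c := sub_pos.2 hcd
  have q3 := hp1 1
  have q4 := hp2 1
  simp only [hD1, hD2] at q3 q4
  have h6 : Real.log ((phi P b 1 - phi P a 1) * (d - c)) ≤
      Real.log (Real.exp (C * (v - u)) * ((phi P d 1 - phi P c 1) * (b - a))) := by
    rw [Real.log_mul q3.ne' q2.ne', Real.log_mul (Real.exp_pos _).ne' (mul_pos q4 q1).ne',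
      Real.log_exp, Real.log_mul q4.ne' q1.ne']
    linarith
  exact (Real.log_le_log_iff (mul_pos q3 q2)
    (mul_pos (Real.exp_pos _) (mul_pos q4 q1))).1 h6

end Clo
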