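import Pool.Agent.Lib.MP_2f875b_anE.Torus
import Pool.Agent.Lib.MP_2f875b_anF.Flow

/-! # From closed orbits of `Z + c` to closed orbits of `X + a c` -/

set_option autoImplicit false

open Set Filter Topology NNReal

namespace Clo

theorem assemble {n : ℕ} {r : WithTop ℕ∞} (hr : 1 ≤ r)
    {X Z : EuclideanSpace ℝ (Fin n) → EuclideanSpace ℝ (Fin n)} (hX : TorusField r X)
    {a : EuclideanSpace ℝ (Fin n) → ℝ} (ha : ContDiff ℝ r a)
    (hap : ∀ x m, a (x + lat m) = a x) (ha0 : ∀ x, 0 < a x) (hXZ : ∀ x, X x = a x • Z x)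
    (hZc : Continuous Z) (hZp : ∀ x m, Z (x + lat m) = Z x)
    (hX0 : ∀ x, X x ≠ 0) (s : ℕ) (hs : (s : WithTop ℕ∞) ≤ r) {ε : ℝ} (hε : 0 < ε) :
    ∃ δ : ℝ, 0 < δ ∧ ∀ c : EuclideanSpace ℝ (Fin n), ‖c‖ ≤ δ →
      ∀ (p : EuclideanSpace ℝ (Fin n)) (Γ : ℝ → EuclideanSpace ℝ (Fin n)), Γ 0 = p →
      (∀ t, HasDerivAt Γ (Z (Γ t) + c) t) → ∀ q : ℝ, 0 < q → ∀ m, Γ q = p + lat m →
      ∃ Y, TorusField r Y ∧ CsClose s ε X Y ∧ OnPeriodicOrbit Y p := by
  obtain ⟨La, hLa⟩ := per_lip (ha.of_le hr) hap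
  obtain ⟨A, hA⟩ := per_bdd ha.continuous hap
  obtain ⟨BZ, hBZ⟩ := per_bdd hZc hZp
  obtain ⟨a0, ha0p, ha0l⟩ := per_pos ha.continuous hap ha0
  obtain ⟨x0, hx0p, hx0l⟩ := per_pos (a := fun x => ‖X x‖) hX.smooth.continuous.norm
    (fun x m => by simp only [hX.periodic]) (fun x => norm_pos_iff.2 (hX0 x))
  have hA0 : 0 ≤ A := (norm_nonneg _).trans (hA 0)
  have hBZ0 : 0 ≤ BZ := (norm_nonneg _).trans (hBZ 0)
  -- bounds for the derivatives of `a`
  have hD : ∃ D : ℝ, 0 < D ∧ ∀ j ≤ s, ∀ x, ‖iteratedFDeriv ℝ j a x‖ ≤ D := by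
    have h1 : ∀ j : ℕ, ∃ B : ℝ, j ≤ s → ∀ x, ‖iteratedFDeriv ℝ j a x‖ ≤ B := by
      intro j
      by_cases hj : j ≤ s
      · obtain ⟨B, hB⟩ := per_bdd (f := iteratedFDeriv ℝ j a)
          (ha.continuous_iteratedFDeriv (le_trans (by exact_mod_cast hj) hs))
          (fun x m => per_iter hap j x m)
        exact ⟨B, fun _ => hB⟩
      · exact ⟨0, fun h => absurd h hj⟩
    choose B hB using h1
    refine ⟨1 + ∑ j ∈ Finset.range (s + 1), |B j|, by positivity, fun j hj x => ?_⟩
    have h2 := hB j hj x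
    have h3 : |B j| ≤ ∑ j ∈ Finset.range (s + 1), |B j| :=
      Finset.single_le_sum (f := fun j => |B j|) (fun _ _ => abs_nonneg _)
        (Finset.mem_range.2 (by omega))
    have h4 := le_abs_self (B j)
    linarith
  obtain ⟨D, hD0, hD⟩ := hD
  set δ : ℝ := min (ε / (2 * D)) (x0 / (2 * (A + 1))) with hδ
  have hδ0 : 0 < δ := lt_min (by positivity) (by positivity)
  refine ⟨δ, hδ0, ?_⟩
  intro z hzn p Γ hΓ0 hΓ q hq m hΓq
  set Y : EuclideanSpace ℝ (Fin n) → EuclideanSpace ℝ (Fin n) := fun x => X x + a x • z with hY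
  have hYf : TorusField r Y := by
    refine ⟨hX.smooth.add (ha.smul contDiff_const), fun x m => ?_⟩
    show X (x + lat m) + a (x + lat m) • z = X x + a x • z
    rw [hX.periodic, hap]
  have hYe : ∀ x, Y x = a x • (Z x + z) := by
    intro x
    show X x + a x • z = _
    rw [hXZ, smul_add]
  have hYn : ∀ x, Y x ≠ 0 := by
    intro x h0
    have h1 : X x = -(a x • z) := eq_neg_of_add_eq_zero_left h0
    have h2 : ‖X x‖ ≤ A * δ := by
      rw [h1, norm_neg, norm_smul]
      exact mul_le_mul (hA x) hzn (norm_nonneg _) hA0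
    have h3 := hx0l x
    have h4 : A * δ < x0 := by
      have h5 : δ ≤ x0 / (2 * (A + 1)) := min_le_right _ _
      have h6 : A * δ ≤ A * (x0 / (2 * (A + 1))) := mul_le_mul_of_nonneg_left h5 hA0
      have h7 : A * (x0 / (2 * (A + 1))) < x0 := by
        rw [mul_div_assoc', div_lt_iff₀ (by positivity)]
        nlinarith
      linarith
    linarith
  refine ⟨Y, hYf, ?_, hYn p, ?_⟩
  · intro j hj x
    have e1 : (fun x => Y x - X x) = (ContinuousLinearMap.toSpanSingleton ℝ z) ∘ a := by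
      funext x
      show X x + a x • z - X x = a x • z
      abel
    rw [e1]
    have h1 := (ContinuousLinearMap.toSpanSingleton ℝ z).norm_iteratedFDeriv_comp_left
      (f := a) (x := x) (N := r) (n := j) ha.contDiffAt (le_trans (by exact_mod_cast hj) hs)
    rw [ContinuousLinearMap.norm_toSpanSingleton] at h1
    have h2 := hD j hj x
    have h3 : ‖z‖ * ‖iteratedFDeriv ℝ j a x‖ ≤ δ * D :=
      mul_le_mul hzn h2 (norm_nonneg _) hδ0.le
    have h4 : δ * D ≤ ε / (2 * D) * D := mul_le_mul_of_nonneg_right (min_le_left _ _) hD0.le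
    have h5 : ε / (2 * D) * D = ε / 2 := by field_simp
    linarith
  -- the closed orbit
  · have hΓlip : LipschitzWith (Real.toNNReal (BZ + ‖z‖)) Γ := by
      refine lipschitzWith_of_nnnorm_deriv_le (fun t => (hΓ t).differentiableAt) fun t => ?_
      rw [(hΓ t).deriv, ← NNReal.coe_le_coe, coe_nnnorm, Real.coe_toNNReal _ (by positivity)]
      refine (norm_add_le _ _).trans ?_
      have := hBZ (Γ t)
      linarith
    have hpath : LipschitzWith (La * Real.toNNReal (BZ + ‖z‖)) (fun θ : ℝ => a (Γ θ)) :=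
      hLa.comp hΓlip
    obtain ⟨θ, hθ0, hθ⟩ := exists_global hpath (B := A) (fun θ => hA _) 0
    set y : ℝ → EuclideanSpace ℝ (Fin n) := fun t => Γ (θ t) with hy
    have hy0 : y 0 = p := by
      show Γ (θ 0) = p
      rw [hθ0, hΓ0]
    have hyd : ∀ t, HasDerivAt y (Y (y t)) t := by
      intro t
      have h1 := (hΓ (θ t)).scomp t (hθ t)
      rw [hYe]
      exact h1
    have hθlow : ∀ t, 0 ≤ t → a0 * t ≤ θ t := by
      intro t ht
      have hmono : MonotoneOn (fun t => θ t - a0 * t) (Ici 0) := by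
        refine monotoneOn_of_deriv_nonneg (convex_Ici 0) ?_ ?_ ?_
        · exact fun t _ => ((hθ t).continuousAt.sub (by fun_prop)).continuousWithinAt
        · exact fun t _ => ((hθ t).sub
            ((hasDerivAt_id t).const_mul a0)).differentiableAt.differentiableWithinAt
        · intro t _
          have h1 : HasDerivAt (fun t => θ t - a0 * t) (a (Γ (θ t)) - a0 * 1) t :=
            (hθ t).fun_sub ((hasDerivAt_id' t).const_mul a0)
          rw [h1.deriv]
          have := ha0l (Γ (θ t))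
          linarith
      have := hmono (mem_Ici.2 le_rfl) (mem_Ici.2 ht) ht
      simp only [hθ0, mul_zero, sub_zero] at this
      linarith
    have hθc : Continuous θ := continuous_iff_continuousAt.2 fun t => (hθ t).continuousAt
    obtain ⟨T', hT'mem, hT'⟩ : ∃ T' ∈ Icc 0 (q / a0), θ T' = q := by
      have hTT : 0 ≤ q / a0 := div_nonneg hq.le ha0p.le
      have h1 := intermediate_value_Icc hTT (f := θ) hθc.continuousOn
      have h2 : q ≤ θ (q / a0) := by
        have := hθlow _ hTT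
        rwa [mul_div_cancel₀ _ ha0p.ne'] at this
      obtain ⟨T', h3, h4⟩ := h1 ⟨by rw [hθ0]; exact hq.le, h2⟩
      exact ⟨T', h3, h4⟩
    have hT'0 : 0 < T' := by
      rcases hT'mem.1.lt_or_eq with h | h
      · exact h
      · exfalso
        rw [← h, hθ0] at hT'
        linarith
    have hyT : y T' = p + lat m := by
      show Γ (θ T') = _
      rw [hT', hΓq]
    refine ⟨y, ⟨hy0, hyd⟩, T', hT'0, m, fun t => ?_⟩
    obtain ⟨K, hK⟩ := per_lip (hYf.smooth.of_le hr) hYf.periodic
    have h1 : ∀ t, HasDerivAt (fun t => y (t + T') - lat m) (Y (y (t + T') - lat m)) t := by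
      intro t
      have h2 := (hyd (t + T')).comp_add_const t T'
      have h3 : Y (y (t + T') - lat m) = Y (y (t + T')) := by
        have := hYf.periodic (y (t + T') - lat m) m
        rw [sub_add_cancel] at this
        exact this.symm
      rw [h3]
      exact h2.sub_const _
    have h4 := sol_unique hK h1 hyd (by simp only [zero_add, hyT, hy0]; abel)
    have h5 := congrFun h4 t
    rw [← h5]
    abel

/-- Restriction of a periodic function to a coordinate plane. -/
theorem per_of {n : ℕ} {ζ : EuclideanSpace ℝ (Fin n) → ℝ} (hζ : ContDiff ℝ 2 ζ)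
    (hp : ∀ x m, ζ (x + lat m) = ζ x) (b : EuclideanSpace ℝ (Fin n)) (i j : Fin n) :
    ∃ (L : ℝ≥0) (L' G : ℝ), 0 ≤ L' ∧
      Per (fun t y => ζ (b + t • EuclideanSpace.single j (1 : ℝ) +
          y • EuclideanSpace.single i (1 : ℝ)))
        (fun t y => fderiv ℝ ζ (b + t • EuclideanSpace.single j (1 : ℝ) +
          y • EuclideanSpace.single i (1 : ℝ)) (EuclideanSpace.single i (1 : ℝ))) L L' G := by
  obtain ⟨K, hK⟩ := per_lip (hζ.of_le (by norm_num)) hp
  obtain ⟨B, hB⟩ := per_bdd hζ.continuous hp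
  have hfp : ∀ x m, fderiv ℝ ζ (x + lat m) = fderiv ℝ ζ x := by
    intro x m
    rw [← fderiv_comp_add_right]
    congr 1
    funext z
    exact hp z m
  have hfc : ContDiff ℝ 1 (fderiv ℝ ζ) := hζ.fderiv_right (by norm_num)
  obtain ⟨K', hK'⟩ := per_lip hfc hfp
  set e : Fin n → EuclideanSpace ℝ (Fin n) := fun i => EuclideanSpace.single i (1 : ℝ) with he
  have hen : ∀ i, ‖e i‖ = 1 := fun i => by simp [he]
  have hel : ∀ i, e i = lat (Pi.single i 1) := by
    intro i
    ext l
    simp only [he, lat, PiLp.single_apply, Pi.single_apply]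
    split_ifs <;> simp
  have hal : ∀ q q' : ℝ × ℝ, dist (b + q.1 • e j + q.2 • e i) (b + q'.1 • e j + q'.2 • e i) ≤
      2 * dist q q' := by
    intro q q'
    rw [dist_eq_norm]
    have e1 : b + q.1 • e j + q.2 • e i - (b + q'.1 • e j + q'.2 • e i) =
        (q.1 - q'.1) • e j + (q.2 - q'.2) • e i := by
      rw [sub_smul, sub_smul]; abel
    rw [e1]
    refine (norm_add_le _ _).trans ?_
    rw [norm_smul, norm_smul, hen, hen, mul_one, mul_one, dist_eq_norm]
    have h1 : ‖q.1 - q'.1‖ ≤ ‖q - q'‖ := norm_fst_le (q - q')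
    have h2 : ‖q.2 - q'.2‖ ≤ ‖q - q'‖ := norm_snd_le (q - q')
    linarith
  refine ⟨K * 2, K', B, K'.2, ?_, ?_, ?_, ?_, ?_, ?_⟩
  · refine LipschitzWith.of_dist_le_mul fun q q' => ?_
    have h1 := hK.dist_le_mul (b + q.1 • e j + q.2 • e i) (b + q'.1 • e j + q'.2 • e i)
    refine h1.trans ?_
    push_cast
    rw [mul_assoc]
    exact mul_le_mul_of_nonneg_left (hal q q') K.2
  · intro t y
    exact hB _
  · intro t y
    have h1 := hp (b + t • e j + y • e i) (Pi.single j 1)
    rw [← hel] at h1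
    show ζ (b + (t + 1) • e j + y • e i) = ζ (b + t • e j + y • e i)
    rw [← h1, add_smul, one_smul]
    congr 1
    abel
  · intro t y
    have h1 := hp (b + t • e j + y • e i) (Pi.single i 1)
    rw [← hel] at h1
    show ζ (b + t • e j + (y + 1) • e i) = ζ (b + t • e j + y • e i)
    rw [← h1, add_smul, one_smul]
    congr 1
    abel
  · intro t y
    have h1 : HasFDerivAt ζ (fderiv ℝ ζ (b + t • e j + y • e i)) (b + t • e j + y • e i) :=
      (hζ.differentiable (by norm_num) _).hasFDerivAt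
    have h2 : HasDerivAt (fun y : ℝ => b + t • e j + y • e i) (e i) y := by
      have := ((hasDerivAt_id' y).smul_const (e i)).const_add (b + t • e j)
      rwa [one_smul] at this
    exact h1.comp_hasDerivAt y h2
  · intro t y z
    have h1 := hK'.dist_le_mul (b + t • e j + y • e i) (b + t • e j + z • e i)
    rw [dist_eq_norm, dist_eq_norm] at h1
    have e1 : b + t • e j + y • e i - (b + t • e j + z • e i) = (y - z) • e i := by
      rw [sub_smul]; abel
    rw [e1, norm_smul, hen, mul_one, Real.norm_eq_abs] at h1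
    have h2 := (fderiv ℝ ζ (b + t • e j + y • e i) -
      fderiv ℝ ζ (b + t • e j + z • e i)).le_opNorm (e i)
    rw [hen, mul_one] at h2
    exact h2.trans h1

end Clo
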