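import Pool.Agent.Lib.MP_2f875b_anF.Flow

/-! # Uniform shadowing at returns -/

set_option autoImplicit false

open Set Filter Topology NNReal

namespace Clo

theorem unit_cont (f : CircleDeg1Liftˣ) : Continuous f := by
  rw [← CircleDeg1Lift.coe_toOrderIso]
  exact (CircleDeg1Lift.toOrderIso f).continuous

theorem semi_nat {f : CircleDeg1Liftˣ} {h : CircleDeg1Lift} {ρ : ℝ}
    (hs : ∀ x, h (f x) = h x + ρ) (n : ℕ) (x : ℝ) :
    h ((f : CircleDeg1Lift)^[n] x) = h x + n * ρ := by
  induction n with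
  | zero => simp
  | succ n ih =>
    rw [Function.iterate_succ_apply', hs, ih]
    push_cast
    ring

theorem semi_cont {f : CircleDeg1Liftˣ} {h : CircleDeg1Lift} {ρ : ℝ} (hρ : Irrational ρ)
    (hs : ∀ x, h (f x) = h x + ρ) : Continuous h := by
  refine h.monotone.continuous_of_denseRange ?_
  rw [Metric.denseRange_iff]
  intro y r hr
  have hd : Dense (AddSubgroup.closure {ρ, (1 : ℝ)} : Set ℝ) := by
    rw [dense_addSubgroupClosure_pair_iff, div_one]
    exact hρ
  obtain ⟨s, hs1, hs2⟩ := hd.exists_dist_lt (y - h 0) hr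
  obtain ⟨n, m, hnm⟩ := AddSubgroup.mem_closure_pair.1 hs1
  refine ⟨(f ^ n : CircleDeg1Liftˣ) 0 + m, ?_⟩
  rw [h.map_add_int, zpow_semi hs]
  rw [zsmul_eq_mul, zsmul_eq_mul, mul_one] at hnm
  rw [← hnm] at hs2
  rw [Real.dist_eq] at hs2 ⊢
  have : y - (h 0 + n * ρ + m) = y - h 0 - (n * ρ + m) := by ring
  rw [this]
  exact hs2

/-- Uniform continuity of the inverse of a conjugacy. -/
theorem inv_unif {h : CircleDeg1Lift} (hc : Continuous h) (hm : StrictMono h) {ε : ℝ}
    (hε : 0 < ε) : ∃ δ : ℝ, 0 < δ ∧ ∀ a b : ℝ, |h a - h b| < δ → |a - b| < ε := by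
  have hcont : Continuous fun a : ℝ => h (a + ε) - h a := by fun_prop
  obtain ⟨a0, -, ha0⟩ := (isCompact_Icc (a := (0 : ℝ)) (b := 1)).exists_isMinOn
    ⟨0, by simp⟩ hcont.continuousOn
  refine ⟨h (a0 + ε) - h a0, sub_pos.2 (hm (by linarith)), ?_⟩
  have hmin : ∀ a : ℝ, h (a0 + ε) - h a0 ≤ h (a + ε) - h a := by
    intro a
    have h1 : h (a0 + ε) - h a0 ≤ h (Int.fract a + ε) - h (Int.fract a) :=
      ha0 ⟨Int.fract_nonneg a, (Int.fract_lt_one a).le⟩
    have h2 : Int.fract a + ε = a + ε - ⌊a⌋ := by rw [← Int.self_sub_floor]; ring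
    have h3 : Int.fract a = a - ⌊a⌋ := (Int.self_sub_floor a).symm
    rw [h2, h3, h.map_sub_int, h.map_sub_int] at h1
    linarith
  have key : ∀ a b : ℝ, a ≤ b → h b - h a < h (a0 + ε) - h a0 → b - a < ε := by
    intro a b _ h1
    by_contra hcon
    push Not at hcon
    have h2 := hm.monotone (show a + ε ≤ b by linarith)
    have h3 := hmin a
    linarith
  intro a b hab
  rcases le_total a b with h1 | h1
  · rw [abs_sub_comm, abs_of_nonneg (sub_nonneg.2 (hm.monotone h1))] at hab
    rw [abs_sub_comm, abs_of_nonneg (sub_nonneg.2 h1)]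
    exact key a b h1 hab
  · rw [abs_of_nonneg (sub_nonneg.2 (hm.monotone h1))] at hab
    rw [abs_of_nonneg (sub_nonneg.2 h1)]
    exact key b a h1 hab

theorem int_gap (r : ℝ) : ∃ η : ℝ, 0 < η ∧ ∀ k : ℤ, |r - k| < η → r = k := by
  by_cases h : ∃ k : ℤ, r = k
  · obtain ⟨k0, rfl⟩ := h
    refine ⟨1, one_pos, fun k hk => ?_⟩
    have h1 : |k0 - k| < 1 := by
      have : ((|k0 - k| : ℤ) : ℝ) < 1 := by push_cast; exact hk
      exact_mod_cast this
    rw [Int.abs_lt_one_iff] at h1
    have : k0 = k := by omega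
    rw [this]
  · push Not at h
    refine ⟨|r - round r|, abs_pos.2 (sub_ne_zero.2 (h _)), fun k hk => ?_⟩
    exact absurd (round_le r k) (not_le.2 hk)

theorem int_gap_fin (r : ℕ → ℝ) (n : ℕ) :
    ∃ η : ℝ, 0 < η ∧ ∀ b < n, ∀ k : ℤ, |r b - k| < η → r b = k := by
  induction n with
  | zero => exact ⟨1, one_pos, fun b hb => by omega⟩
  | succ n ih =>
    obtain ⟨η, h0, h1⟩ := ih
    obtain ⟨η', h0', h1'⟩ := int_gap (r n)
    refine ⟨min η η', lt_min h0 h0', fun b hb k hk => ?_⟩
    rcases Nat.lt_or_ge b n with h | h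
    · exact h1 b h k (hk.trans_le (min_le_left _ _))
    · have : b = n := by omega
      subst this
      exact h1' k (hk.trans_le (min_le_right _ _))

/-- Rational translation number: returns of a point are exact or do not exist. -/
theorem rational_return {f : CircleDeg1Liftˣ} {n : ℕ} (hn : 0 < n) {m0 : ℤ} {p : ℝ}
    (hp : (f : CircleDeg1Lift)^[n] p = p + m0) (x : ℝ) :
    ∃ η : ℝ, 0 < η ∧ ∃ N : ℕ, ∀ q : ℕ, N ≤ q → ∀ m : ℤ,
      |(f : CircleDeg1Lift)^[q] x - (x + m)| < η → (f : CircleDeg1Lift)^[q] x = x + m := by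
  set F : CircleDeg1Lift := (f : CircleDeg1Lift) with hF
  have hFc : Continuous F := unit_cont f
  have hFm : StrictMono F := unit_strictMono f
  set Q : ℝ → ℝ := fun y => F^[n] y - m0 with hQ
  have hadd : ∀ (b : ℕ) (y : ℝ) (k : ℤ), F^[b] (y + k) = F^[b] y + k := by
    intro b y k
    rw [← CircleDeg1Lift.coe_pow]
    exact (F ^ b).map_add_int y k
  have hQm : Monotone Q := fun a b hab => by
    simp only [hQ]
    have := (hFm.monotone.iterate n) hab
    linarith
  have hQc : Continuous Q := (hFc.iterate n).sub continuous_const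
  have hiter : ∀ (a : ℕ) (y : ℝ), F^[n * a] y = Q^[a] y + a * m0 := by
    intro a y
    induction a with
    | zero => simp
    | succ a ih =>
      rw [mul_add, mul_one, Function.iterate_add_apply, Function.iterate_succ_apply']
      have h1 : F^[n * a] (F^[n] y) = F^[n] (F^[n * a] y) := by
        rw [← Function.iterate_add_apply, ← Function.iterate_add_apply, add_comm]
      have h2 : Q^[a] y + (a : ℝ) * m0 = Q^[a] y + ((a * m0 : ℤ) : ℝ) := by push_cast; rfl
      rw [h1, ih, h2, hadd]
      simp only [hQ]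
      push_cast
      ring
  have hQp : ∀ k : ℤ, Q (p + k) = p + k := by
    intro k
    simp only [hQ]
    rw [hadd, hp]
    ring
  have hsplit : ∀ (q : ℕ), F^[q] x = F^[q % n] (Q^[q / n] x) + ((q / n * m0 : ℤ) : ℝ) := by
    intro q
    conv_lhs => rw [← Nat.mod_add_div q n]
    rw [Function.iterate_add_apply, hiter, ← hadd]
    congr 2
    push_cast
    rfl
  by_cases hx : Q x = x
  · obtain ⟨η, hη0, hη⟩ := int_gap_fin (fun b => F^[b] x - x) n
    refine ⟨η, hη0, 0, fun q _ m hm => ?_⟩
    have h1 : Q^[q / n] x = x := Function.iterate_fixed hx _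
    have h2 := hsplit q
    rw [h1] at h2
    have h3 := hη (q % n) (Nat.mod_lt _ hn) (m - q / n * m0) (by
      rw [h2] at hm
      refine lt_of_le_of_lt (le_of_eq ?_) hm
      congr 1
      push_cast
      ring)
    rw [h2]
    push_cast at h3 ⊢
    linarith
  · -- the limit of the iterates
    obtain ⟨P, hP, hlim⟩ : ∃ P, Q P = P ∧ Tendsto (fun a => Q^[a] x) atTop (𝓝 P) := by
      rcases le_total x (Q x) with h1 | h1
      · have hmono := hQm.monotone_iterate_of_le_map h1
        have hbdd : BddAbove (range fun a => Q^[a] x) := by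
          refine ⟨p + ⌈x - p⌉, ?_⟩
          rintro _ ⟨a, rfl⟩
          have h2 : x ≤ p + ⌈x - p⌉ := by have := Int.le_ceil (x - p); linarith
          have h3 := (hQm.iterate a) h2
          rwa [Function.iterate_fixed (hQp _)] at h3
        have h2 := tendsto_atTop_ciSup hmono hbdd
        exact ⟨_, isFixedPt_of_tendsto_iterate h2 hQc.continuousAt, h2⟩
      · have hanti := hQm.antitone_iterate_of_map_le h1
        have hbdd : BddBelow (range fun a => Q^[a] x) := by
          refine ⟨p + ⌊x - p⌋, ?_⟩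
          rintro _ ⟨a, rfl⟩
          have h2 : p + ⌊x - p⌋ ≤ x := by have := Int.floor_le (x - p); linarith
          have h3 := (hQm.iterate a) h2
          rwa [Function.iterate_fixed (hQp _)] at h3
        have h2 := tendsto_atTop_ciInf hanti hbdd
        exact ⟨_, isFixedPt_of_tendsto_iterate h2 hQc.continuousAt, h2⟩
    obtain ⟨η, hη0, hη⟩ := int_gap_fin (fun b => F^[b] P - x) n
    -- the gap is never attained
    have hne : ∀ b : ℕ, ∀ k : ℤ, F^[b] P - x ≠ k := by
      intro b k hk
      apply hx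
      have h1 : F^[b] P = x + k := by linarith
      have h2 : Q (F^[b] P) = F^[b] P := by
        simp only [hQ]
        have h3 : F^[n] (F^[b] P) = F^[b] (F^[n] P) := by
          rw [← Function.iterate_add_apply, ← Function.iterate_add_apply, add_comm]
        have h4 : F^[n] P = P + m0 := by
          have : F^[n] P - m0 = P := hP
          linarith
        rw [h3, h4, hadd]
        ring
      rw [h1] at h2
      simp only [hQ] at h2 ⊢
      rw [hadd] at h2
      linarith
    have hev : ∀ b : ℕ, ∀ᶠ a in atTop, |F^[b] (Q^[a] x) - F^[b] P| < η / 2 := by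
      intro b
      have h1 : Tendsto (fun a => F^[b] (Q^[a] x)) atTop (𝓝 (F^[b] P)) :=
        ((hFc.iterate b).tendsto P).comp hlim
      have h2 := (Metric.tendsto_nhds.1 h1) (η / 2) (by positivity)
      filter_upwards [h2] with a ha
      rwa [Real.dist_eq] at ha
    have hall : ∀ᶠ a in atTop, ∀ b < n, |F^[b] (Q^[a] x) - F^[b] P| < η / 2 := by
      have h1 : ∀ᶠ a in atTop, ∀ b ∈ Finset.range n, |F^[b] (Q^[a] x) - F^[b] P| < η / 2 :=
        (Filter.eventually_all_finset _).2 fun b _ => hev b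
      filter_upwards [h1] with a ha b hb
      exact ha b (Finset.mem_range.2 hb)
    obtain ⟨A, hA⟩ := eventually_atTop.1 hall
    refine ⟨η / 2, by positivity, n * A, fun q hq m hm => ?_⟩
    exfalso
    have hqA : A ≤ q / n := by
      rw [Nat.le_div_iff_mul_le hn, mul_comm]
      exact hq
    have h1 := hA (q / n) hqA (q % n) (Nat.mod_lt _ hn)
    rw [hsplit q] at hm
    have h2 := hη (q % n) (Nat.mod_lt _ hn) (m - q / n * m0) (by
      have e : F^[q % n] P - x - ((m - q / n * m0 : ℤ) : ℝ) =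
          (F^[q % n] (Q^[q / n] x) + ((q / n * m0 : ℤ) : ℝ) - (x + m)) -
            (F^[q % n] (Q^[q / n] x) - F^[q % n] P) := by
        push_cast
        ring
      rw [e]
      have := abs_sub (F^[q % n] (Q^[q / n] x) + ((q / n * m0 : ℤ) : ℝ) - (x + m))
        (F^[q % n] (Q^[q / n] x) - F^[q % n] P)
      linarith)
    exact hne _ _ h2

variable {g g' : ℝ → ℝ → ℝ} {L : ℝ≥0} {L' G : ℝ}

/-- At a return the unperturbed solution which ends at the translate of the initial point is
uniformly close to the given solution. -/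
theorem shadow (P : Per g g' L L' G) (hL' : 0 ≤ L') (x : ℝ) {ε : ℝ} (hε : 0 < ε) :
    ∃ η : ℝ, 0 < η ∧ ∃ N : ℕ, ∀ q : ℕ, N ≤ q → ∀ m : ℤ, |phi P x q - (x + m)| < η →
      ∀ u, Sol g 0 u → u q = x + m → ∀ t ∈ Icc (0 : ℝ) q, |u t - phi P x t| ≤ ε := by
  obtain ⟨f, hf⟩ := exists_unit P
  set ρ : ℝ := CircleDeg1Lift.translationNumber f with hρ
  by_cases hirr : Irrational ρ
  · have htr : ρ = CircleDeg1Lift.translationNumber
        (CircleDeg1Lift.translate (Multiplicative.ofAdd ρ) : CircleDeg1Liftˣ) := by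
      rw [CircleDeg1Lift.translationNumber_translate]
    obtain ⟨h, hh⟩ := CircleDeg1Lift.units_semiconj_of_translationNumber_eq
      (f₁ := f) (f₂ := CircleDeg1Lift.translate (Multiplicative.ofAdd ρ)) htr
    have hs : ∀ y, h (f y) = h y + ρ := by
      intro y
      have := hh y
      rw [CircleDeg1Lift.translate_apply] at this
      rw [this, add_comm]
    have hdist : Distort (L' * Real.exp L) f := by
      have h1 := phi_distort P hL'
      have h2 : (fun x => phi P x 1) = f := by
        funext y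
        rw [hf]
      rwa [h2] at h1
    have hm := denjoy (mul_nonneg hL' (Real.exp_pos _).le) hdist hirr hs
    have hc := semi_cont hirr hs
    have hε' : 0 < ε * Real.exp (-L) := by positivity
    obtain ⟨δ, hδ0, hδ⟩ := inv_unif hc hm hε'
    obtain ⟨η, hη0, hη⟩ := (Metric.continuous_iff.1 hc) x δ hδ0
    refine ⟨η, hη0, 0, fun q _ m hqm u hu huq t ht => ?_⟩
    have hhn : ∀ (y : ℝ) (n : ℕ), h (phi P y n) = h y + n * ρ := by
      intro y n
      rw [← phi_nat P hf, semi_nat hs]
    have e1 : u = phi P (u 0) := eq_phi P hu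
    have h1 : h (u 0) + q * ρ = h x + m := by
      rw [← hhn, ← e1, huq, h.map_add_int]
    have h2 : |(q : ℝ) * ρ - m| < δ := by
      have h3 := hη (phi P x q - m) (by
        rw [Real.dist_eq]
        refine lt_of_le_of_lt (le_of_eq ?_) hqm
        congr 1; ring)
      rw [Real.dist_eq, h.map_sub_int, hhn] at h3
      refine lt_of_le_of_lt (le_of_eq ?_) h3
      congr 1; ring
    set i : ℕ := ⌊t⌋₊ with hi
    have hit : (i : ℝ) ≤ t := Nat.floor_le ht.1
    have hti : t < i + 1 := Nat.lt_floor_add_one t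
    have h4 : |u i - phi P x i| < ε * Real.exp (-L) := by
      apply hδ
      rw [e1, hhn, hhn]
      refine lt_of_le_of_lt (le_of_eq ?_) h2
      rw [← abs_neg]
      congr 1
      linarith
    have h5 := Sol.gron P.lip hu (phi_sol P x) hit
    have h6 : Real.exp (L * (t - i)) ≤ Real.exp L := by
      apply Real.exp_le_exp.2
      have : (0 : ℝ) ≤ L := L.2
      nlinarith
    calc |u t - phi P x t| ≤ |u i - phi P x i| * Real.exp (L * (t - i)) := h5
      _ ≤ (ε * Real.exp (-L)) * Real.exp L :=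
          mul_le_mul h4.le h6 (Real.exp_pos _).le hε'.le
      _ = ε := by rw [mul_assoc, ← Real.exp_add]; simp
  · rw [Irrational, not_not] at hirr
    obtain ⟨r, hr⟩ := hirr
    have h1 : ρ = (r.num : ℝ) / (r.den : ℕ) := by
      rw [← hr]
      exact_mod_cast (Rat.num_div_den r).symm
    obtain ⟨p, hp⟩ := ((f : CircleDeg1Lift).translationNumber_eq_rat_iff (unit_cont f)
      r.den_pos).1 h1
    rw [CircleDeg1Lift.coe_pow] at hp
    obtain ⟨η, hη0, N, hN⟩ := rational_return r.den_pos hp x
    refine ⟨η, hη0, N, fun q hq m hqm u hu huq t _ => ?_⟩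
    have h2 := hN q hq m (by rw [phi_nat P hf]; exact hqm)
    rw [phi_nat P hf] at h2
    have h3 : u = phi P x := Sol.unique P.lip hu (phi_sol P x) (huq.trans h2.symm)
    rw [h3, sub_self, abs_zero]
    exact hε.le

end Clo
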