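import Pool.Agent.Lib.MP_2f875b_anF.Assem
import Pool.Agent.Lib.MP_2f875b_anF.Shadow

/-! # Circle extensions of products of circle flows: the closing property -/

set_option autoImplicit false

open Set Filter Topology NNReal

namespace Clo

theorem coord_deriv {n : ℕ} {Γ : ℝ → EuclideanSpace ℝ (Fin n)} {v : EuclideanSpace ℝ (Fin n)}
    {t : ℝ} (h : HasDerivAt Γ v t) (i : Fin n) : HasDerivAt (fun t => Γ t i) (v i) t :=
  ((EuclideanSpace.proj (𝕜 := ℝ) i).hasFDerivAt.comp_hasDerivAt t h)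

theorem deriv_of_coord {n : ℕ} {y : Fin n → ℝ → ℝ} {v : Fin n → ℝ}
    {t : ℝ} (h : ∀ i, HasDerivAt (y i) (v i) t) :
    HasDerivAt (fun t => (WithLp.toLp 2 (fun i => y i t) : EuclideanSpace ℝ (Fin n)))
      (WithLp.toLp 2 v) t :=
  ((PiLp.continuousLinearEquiv 2 ℝ (fun _ : Fin n => ℝ)).symm.hasFDerivAt.comp_hasDerivAt t
    (hasDerivAt_pi.2 h))

theorem norm_le_sum {n : ℕ} (x : EuclideanSpace ℝ (Fin n)) : ‖x‖ ≤ ∑ i, |x i| := by
  rw [EuclideanSpace.norm_eq]
  refine Real.sqrt_le_iff.2 ⟨Finset.sum_nonneg fun _ _ => abs_nonneg _, ?_⟩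
  simp only [Real.norm_eq_abs]
  exact Finset.sum_sq_le_sq_sum_of_nonneg (fun i _ => abs_nonneg _)

theorem coord_le {n : ℕ} (x : EuclideanSpace ℝ (Fin n)) (i : Fin n) : |x i| ≤ ‖x‖ := by
  have := PiLp.norm_apply_le x i
  rwa [Real.norm_eq_abs] at this

/-- The recurrence in terms of the reparametrised field. -/
theorem recur {n : ℕ} [NeZero n] {X Z : EuclideanSpace ℝ (Fin n) → EuclideanSpace ℝ (Fin n)}
    {K : ℝ≥0} (hZ : LipschitzWith K Z) {B : ℝ} (hB : ∀ x, ‖Z x‖ ≤ B)
    {a : EuclideanSpace ℝ (Fin n) → ℝ} {A a0 : ℝ} (hA : ∀ x, ‖a x‖ ≤ A) (ha0 : 0 < a0)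
    (hal : ∀ x, a0 ≤ a x) (hXZ : ∀ x, X x = a x • Z x) (hZ0 : ∀ x, Z x 0 = 1)
    {p : EuclideanSpace ℝ (Fin n)} (hp : Recurrent X p) {Γ : ℝ → EuclideanSpace ℝ (Fin n)}
    (hΓ0 : Γ 0 = p) (hΓ : ∀ t, HasDerivAt Γ (Z (Γ t)) t) {η : ℝ} (hη : 0 < η) (N : ℕ) :
    ∃ q : ℕ, N ≤ q ∧ ∃ m : Fin n → ℤ, m 0 = q ∧ ∀ i, |Γ q i - (p i + m i)| < η := by
  obtain ⟨γ, ⟨hγ0, hγ⟩, hrec⟩ := hp
  set τ : ℝ → ℝ := fun t => γ t 0 - p 0 with hτ
  have hτd : ∀ t, HasDerivAt τ (a (γ t)) t := by
    intro t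
    have h1 := (coord_deriv (hγ t) 0).sub_const (p 0)
    have h2 : X (γ t) 0 = a (γ t) := by
      rw [hXZ]
      show a (γ t) * Z (γ t) 0 = a (γ t)
      rw [hZ0, mul_one]
    rwa [h2] at h1
  have hτ0 : τ 0 = 0 := by simp [hτ, hγ0]
  have hB0 : 0 ≤ B := (norm_nonneg _).trans (hB 0)
  have hA0 : 0 ≤ A := (norm_nonneg _).trans (hA 0)
  have hγΓ : γ = fun t => Γ (τ t) := by
    have hv : ∀ t, LipschitzWith (Real.toNNReal A * K) (fun u => a (γ t) • Z u) := by
      intro t
      refine LipschitzWith.of_dist_le_mul fun x y => ?_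
      rw [dist_eq_norm, ← smul_sub, norm_smul, ← dist_eq_norm]
      push_cast
      rw [Real.coe_toNNReal _ hA0, mul_assoc]
      exact mul_le_mul (hA _) (hZ.dist_le_mul x y) dist_nonneg hA0
    refine ODE_solution_unique_univ (v := fun t u => a (γ t) • Z u) (s := fun _ => univ)
      (K := Real.toNNReal A * K) (t₀ := 0) (fun t => (hv t).lipschitzOnWith)
      (fun t => ⟨?_, trivial⟩) (fun t => ⟨?_, trivial⟩) ?_
    · have := hγ t
      rwa [hXZ] at this
    · exact (hΓ (τ t)).scomp t (hτd t)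
    · rw [hγ0, hτ0, hΓ0]
  have hτlow : ∀ t, 0 ≤ t → a0 * t ≤ τ t := by
    intro t ht
    have hmono : MonotoneOn (fun t => τ t - a0 * t) (Ici 0) := by
      refine monotoneOn_of_deriv_nonneg (convex_Ici 0) ?_ ?_ ?_
      · exact fun t _ => ((hτd t).continuousAt.sub (by fun_prop)).continuousWithinAt
      · exact fun t _ => ((hτd t).sub
          ((hasDerivAt_id t).const_mul a0)).differentiableAt.differentiableWithinAt
      · intro t _
        have h1 : HasDerivAt (fun t => τ t - a0 * t) (a (γ t) - a0 * 1) t :=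
          (hτd t).fun_sub ((hasDerivAt_id' t).const_mul a0)
        rw [h1.deriv]
        have := hal (γ t)
        linarith
    have := hmono (mem_Ici.2 le_rfl) (mem_Ici.2 ht) ht
    simp only [hτ0, mul_zero, sub_zero] at this
    linarith
  have hΓlip : LipschitzWith (Real.toNNReal B) Γ := by
    refine lipschitzWith_of_nnnorm_deriv_le (fun t => (hΓ t).differentiableAt) fun t => ?_
    rw [(hΓ t).deriv, ← NNReal.coe_le_coe, coe_nnnorm, Real.coe_toNNReal _ hB0]
    exact hB (Γ t)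
  set μ : ℝ := min 1 (η / (B + 1)) with hμ
  have hμ0 : 0 < μ := lt_min one_pos (by positivity)
  obtain ⟨t, ht, m, hm⟩ := hrec μ hμ0 ((N + 1) / a0)
  have ht0 : 0 ≤ t := le_trans (by positivity) ht
  have hτt : (N : ℝ) + 1 ≤ τ t := by
    have h1 := hτlow t ht0
    rw [div_le_iff₀ ha0] at ht
    linarith
  have hm0 : |τ t - m 0| < μ := by
    have h1 := coord_le (γ t - (p + lat m)) 0
    have h2 : (γ t - (p + lat m)) 0 = τ t - m 0 := by
      simp only [hτ, lat, PiLp.sub_apply, PiLp.add_apply]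
      ring
    rw [h2] at h1
    exact lt_of_le_of_lt h1 hm
  have hm0' : (N : ℝ) < m 0 := by
    have := (abs_lt.1 hm0).2
    have h1 : μ ≤ 1 := min_le_left _ _
    linarith
  have hm0'' : (N : ℤ) < m 0 := by exact_mod_cast hm0'
  obtain ⟨q, hq⟩ : ∃ q : ℕ, (q : ℤ) = m 0 := ⟨(m 0).toNat, Int.toNat_of_nonneg (by omega)⟩
  have hqr : (q : ℝ) = m 0 := by exact_mod_cast hq
  refine ⟨q, by omega, m, hq.symm, fun i => ?_⟩
  have h1 : ‖Γ q - Γ (τ t)‖ ≤ B * μ := by
    have h2 := hΓlip.dist_le_mul q (τ t)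
    rw [Real.coe_toNNReal _ hB0, dist_eq_norm, Real.dist_eq] at h2
    have h3 : |(q : ℝ) - τ t| ≤ μ := by rw [hqr, abs_sub_comm]; exact hm0.le
    exact h2.trans (mul_le_mul_of_nonneg_left h3 hB0)
  have h2 : ‖Γ (τ t) - (p + lat m)‖ < μ := by
    have := congrFun hγΓ t
    rwa [this] at hm
  have h3 := coord_le (Γ q - (p + lat m)) i
  have h4 : (Γ q - (p + lat m)) i = Γ q i - (p i + m i) := rfl
  rw [h4] at h3
  have h5 : ‖Γ q - (p + lat m)‖ < η := by
    have e : Γ q - (p + lat m) = (Γ q - Γ (τ t)) + (Γ (τ t) - (p + lat m)) := by abel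
    rw [e]
    refine (norm_add_le _ _).trans_lt ?_
    have h6 : μ ≤ η / (B + 1) := min_le_right _ _
    rw [le_div_iff₀ (by linarith)] at h6
    nlinarith
  exact lt_of_le_of_lt h3 h5

/-- Closing for two step extensions: the coordinates in `I` are driven by the coordinate `0`, the
other ones by the coordinate `0` and the coordinates in `I`. -/
theorem twostep_pos {n : ℕ} [NeZero n] {r : WithTop ℕ∞} (hr : 2 ≤ r)
    {X : EuclideanSpace ℝ (Fin n) → EuclideanSpace ℝ (Fin n)} (hX : TorusField r X)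
    (h0 : ∀ x, 0 < X x 0) (I : Set (Fin n))
    (hI : ∀ i ∈ I, ∀ x y, x 0 = y 0 → x i = y i → X x i / X x 0 = X y i / X y 0)
    (hJ : ∀ j ∉ I, ∀ x y, x 0 = y 0 → (∀ i ∈ I, x i = y i) → x j = y j →
      X x j / X x 0 = X y j / X y 0)
    {p : EuclideanSpace ℝ (Fin n)} (hp : Recurrent X p) (s : ℕ)
    (hs : (s : WithTop ℕ∞) ≤ r) {ε : ℝ} (hε : 0 < ε) :
    ∃ Y, TorusField r Y ∧ CsClose s ε X Y ∧ OnPeriodicOrbit Y p := by
  classical
  have hr1 : (1 : WithTop ℕ∞) ≤ r := le_trans (by norm_num) hr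
  obtain ⟨mid, hmid⟩ : ∃ mid : Fin n → Prop, ∀ i, mid i ↔ i = 0 ∨ i ∈ I := ⟨_, fun _ => Iff.rfl⟩
  have hmid0 : mid 0 := (hmid 0).2 (Or.inl rfl)
  set a : EuclideanSpace ℝ (Fin n) → ℝ := fun x => X x 0 with ha
  have hac : ContDiff ℝ r a := contDiff_euclidean.1 hX.smooth 0
  have hap : ∀ x m, a (x + lat m) = a x := fun x m => by simp only [ha, hX.periodic]
  set Z : EuclideanSpace ℝ (Fin n) → EuclideanSpace ℝ (Fin n) := fun x => (a x)⁻¹ • X x with hZ
  have hZc : ContDiff ℝ r Z := (hac.inv fun x => (h0 x).ne').smul hX.smooth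
  have hZp : ∀ x m, Z (x + lat m) = Z x := fun x m => by simp only [hZ, hX.periodic, hap]
  have hXZ : ∀ x, X x = a x • Z x := fun x => by
    simp only [hZ]
    rw [smul_smul, mul_inv_cancel₀ (h0 x).ne', one_smul]
  have hZd : ∀ x i, Z x i = X x i / X x 0 := fun x i => by
    show (a x)⁻¹ * X x i = _
    rw [div_eq_inv_mul]
  have hZ0 : ∀ x, Z x 0 = 1 := fun x => by
    show (a x)⁻¹ * X x 0 = 1
    exact inv_mul_cancel₀ (h0 x).ne'
  have hZI : ∀ i, mid i → ∀ x y, x 0 = y 0 → x i = y i → Z x i = Z y i := by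
    intro i hi x y h1 h2
    rcases (hmid i).1 hi with rfl | hi
    · rw [hZ0, hZ0]
    · rw [hZd, hZd]
      exact hI i hi x y h1 h2
  have hZJ : ∀ j, ¬ mid j → ∀ x y, (∀ i, mid i → x i = y i) → x j = y j → Z x j = Z y j := by
    intro j hj x y h1 h2
    rw [hZd, hZd]
    refine hJ j (fun h => hj ((hmid j).2 (Or.inr h))) x y (h1 0 hmid0)
      (fun i hi => h1 i ((hmid i).2 (Or.inr hi))) h2
  have hX0 : ∀ x, X x ≠ 0 := fun x h => by
    have := h0 x
    rw [h] at this
    exact lt_irrefl _ this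
  obtain ⟨K, hK⟩ := per_lip (hZc.of_le hr1) hZp
  obtain ⟨B, hB⟩ := per_bdd hZc.continuous hZp
  obtain ⟨A, hA⟩ := per_bdd hac.continuous hap
  obtain ⟨a0, ha0, hal⟩ := per_pos hac.continuous hap h0
  have hB0 : 0 ≤ B := (norm_nonneg _).trans (hB 0)
  obtain ⟨δ, hδ0, hδ⟩ := assemble hr1 hX hac hap h0 hXZ hZc.continuous hZp hX0 s hs hε
  -- the orbit
  obtain ⟨Γ, hΓ0, hΓ⟩ := exists_global hK hB p
  have hΓt : ∀ t, Γ t 0 = p 0 + t := by
    intro t
    have hd : ∀ t, HasDerivAt (fun t => Γ t 0 - t) 0 t := fun t => by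
      have h := (coord_deriv (hΓ t) 0).fun_sub (hasDerivAt_id' t)
      rwa [hZ0, sub_self] at h
    have := is_const_of_deriv_eq_zero (fun t => (hd t).differentiableAt)
      (fun t => (hd t).deriv) t 0
    simp only [hΓ0] at this
    linarith
  -- the planar fields
  set b : EuclideanSpace ℝ (Fin n) := p 0 • EuclideanSpace.single 0 (1 : ℝ) with hb
  set g : Fin n → ℝ → ℝ → ℝ := fun i t y =>
    Z (b + t • EuclideanSpace.single 0 (1 : ℝ) + y • EuclideanSpace.single i (1 : ℝ)) i with hg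
  have hgZ : ∀ i, mid i → ∀ (x : EuclideanSpace ℝ (Fin n)) (t : ℝ), x 0 = p 0 + t →
      Z x i = g i t (x i) := by
    intro i hi x t hx
    by_cases hi0 : i = 0
    · subst hi0
      simp only [hg]
      rw [hZ0, hZ0]
    · refine hZI i hi _ _ ?_ ?_
      · rw [hx]
        simp [hb, Ne.symm hi0]
      · simp [hb, hi0]
  have hPer : ∀ i, ∃ (g' : ℝ → ℝ → ℝ) (L : ℝ≥0) (L' G : ℝ), 0 ≤ L' ∧ Per (g i) g' L L' G := by
    intro i
    obtain ⟨L, L', G, hL', hP⟩ := per_of (ζ := fun x => Z x i)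
      ((contDiff_euclidean.1 hZc i).of_le hr) (fun x m => by simp only [hZp]) b i 0
    exact ⟨_, L, L', G, hL', hP⟩
  choose g' L L' G hL' hP using hPer
  have hΓsol : ∀ i, mid i → Sol (g i) 0 (fun t => Γ t i) := by
    intro i hi t
    have h1 := coord_deriv (hΓ t) i
    rw [hgZ i hi (Γ t) t (hΓt t)] at h1
    rw [add_zero]
    exact h1
  have hΓphi : ∀ i, mid i → (fun t => Γ t i) = phi (hP i) (p i) := by
    intro i hi
    have h1 := eq_phi (hP i) (hΓsol i hi)
    simp only [hΓ0] at h1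
    exact h1
  -- constants
  set κ : ℝ := δ / (n + 1) with hκ
  have hκ0 : 0 < κ := by positivity
  set ε1 : ℝ := min κ (κ / (4 * ((K : ℝ) + 1) * (n + 1))) with hε1
  have hK0 : (0 : ℝ) ≤ K := K.2
  have hε10 : 0 < ε1 := lt_min hκ0 (by positivity)
  have hsh : ∀ i, ∃ η : ℝ, 0 < η ∧ ∃ N : ℕ, ∀ q : ℕ, N ≤ q → ∀ m : ℤ,
      |phi (hP i) (p i) q - (p i + m)| < η →
      ∀ u, Sol (g i) 0 u → u q = p i + m → ∀ t ∈ Icc (0 : ℝ) q,
        |u t - phi (hP i) (p i) t| ≤ ε1 := fun i => shadow (hP i) (hL' i) (p i) hε10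
  choose η hη0 N hN using hsh
  obtain ⟨η1, hη10, hη1⟩ : ∃ η1 : ℝ, 0 < η1 ∧ (∀ i, η1 ≤ η i) ∧
      (∀ i, η1 ≤ ε1 / (4 * (L i + 1))) ∧ η1 ≤ κ / (4 * (K + 1)) := by
    obtain ⟨i1, -, h1⟩ := Finset.exists_min_image Finset.univ η ⟨0, Finset.mem_univ _⟩
    obtain ⟨i2, -, h2⟩ := Finset.exists_min_image Finset.univ
      (fun i => ε1 / (4 * ((L i : ℝ) + 1))) ⟨0, Finset.mem_univ _⟩
    refine ⟨min (η i1) (min (ε1 / (4 * ((L i2 : ℝ) + 1))) (κ / (4 * (K + 1)))),
      lt_min (hη0 _) (lt_min (by have := (L i2).2; positivity) (by positivity)), fun i => ?_,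
      fun i => ?_, ?_⟩
    · exact (min_le_left _ _).trans (h1 i (Finset.mem_univ _))
    · exact (min_le_right _ _).trans ((min_le_left _ _).trans (h2 i (Finset.mem_univ _)))
    · exact (min_le_right _ _).trans (min_le_right _ _)
  obtain ⟨q, hq, m, hm0, hm⟩ := recur hK hB hA ha0 hal hXZ hZ0 hp hΓ0 hΓ hη10
    (1 + ∑ i, N i)
  have hqN : ∀ i, N i ≤ q := fun i => by
    have : N i ≤ ∑ i, N i := Finset.single_le_sum (fun _ _ => Nat.zero_le _) (Finset.mem_univ i)
    omega
  have hq1 : (1 : ℝ) ≤ q := by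
    have : 1 ≤ q := by omega
    exact_mod_cast this
  -- closing of the coordinates of the first step
  have hmidc : ∀ i, ∃ (c : ℝ) (z : ℝ → ℝ), mid i → |c| ≤ ε1 ∧ Sol (g i) c z ∧ z 0 = p i ∧
      z q = p i + m i ∧ (∀ t ∈ Icc (0 : ℝ) q, |z t - Γ t i| ≤ ε1) ∧
      (i = 0 → c = 0 ∧ ∀ t, z t = p 0 + t) := by
    intro i
    by_cases hi : mid i
    swap
    · exact ⟨0, fun _ => 0, fun h => absurd h hi⟩
    by_cases hi0 : i = 0
    · subst hi0
      refine ⟨0, fun t => Γ t 0, fun h => ⟨by simp [hε10.le], hΓsol 0 h, by simp [hΓ0], ?_,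
        fun t _ => by simp [hε10.le], fun _ => ⟨rfl, hΓt⟩⟩⟩
      show Γ q 0 = p 0 + m 0
      rw [hΓt, hm0, Int.cast_natCast]
    · have e1 := hΓphi i hi
      have e2 : phi (hP i) (p i) q = Γ q i := (congrFun e1 q).symm
      obtain ⟨c, hc, z, hz0, hz, hzq⟩ := closing_scalar (hP i).lip (hP i).bdd (Ly := L i) (L i).2
        (abs_lip (hP i).lip) hε10 hq1
        (y := fun t => Γ t i) (y' := fun t => g i t (Γ t i)) (x := p i)
        (fun t => by have := hΓsol i hi t; rwa [add_zero] at this) (by simp [hΓ0])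
        (fun t _ => by simp only [sub_self, abs_zero]; positivity) (x1 := p i + m i)
        ((hm i).le.trans (hη1.2.1 i))
      refine ⟨c, z, fun _ => ⟨hc, hz, hz0, hzq, fun t ht => ?_, fun h => absurd h hi0⟩⟩
      obtain ⟨u, huq, hu⟩ := sol_exists (hP i).lip (hP i).bdd 0 q (p i + m i)
      have h1 := hN i q (hqN i) (m i) (by rw [e2]; exact (hm i).trans_le (hη1.1 i)) u hu huq t ht
      have h2 := Sol.between (hP i).lip (hP i).bdd (hΓsol i hi) hu hz (a := 0) (b := q)
        (by rw [hz0]; simp [hΓ0]) (by rw [hzq, huq]) ht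
      have h3 : phi (hP i) (p i) t = Γ t i := (congrFun e1 t).symm
      rw [h3] at h1
      exact h2.trans h1
  choose c z hcz using hmidc
  -- the coordinates of the second step
  set base : ℝ → EuclideanSpace ℝ (Fin n) := fun t =>
    WithLp.toLp 2 (fun i => if mid i then z i t else 0) with hbase
  set f : Fin n → ℝ → ℝ → ℝ := fun j t y =>
    Z (base t + y • EuclideanSpace.single j (1 : ℝ)) j with hf
  have hzlip : ∀ i, mid i → ∀ t t', |z i t - z i t'| ≤ (G i + |c i|) * |t - t'| := by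
    intro i hi t t'
    obtain ⟨-, h1, -⟩ := hcz i hi
    have hG0 : 0 ≤ G i := (abs_nonneg _).trans ((hP i).bdd 0 0)
    have h2 : LipschitzWith (Real.toNNReal (G i + |c i|)) (z i) := by
      refine lipschitzWith_of_nnnorm_deriv_le (fun t => (h1 t).differentiableAt) fun t => ?_
      rw [(h1 t).deriv, ← NNReal.coe_le_coe, coe_nnnorm, Real.coe_toNNReal _ (by positivity),
        Real.norm_eq_abs]
      refine (abs_add_le _ _).trans ?_
      have := (hP i).bdd t (z i t)
      linarith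
    have h3 := h2.dist_le_mul t t'
    rwa [Real.coe_toNNReal _ (by positivity), Real.dist_eq, Real.dist_eq] at h3
  set M : ℝ := ∑ i, (G i + |c i|) with hM
  have hG0 : ∀ i, 0 ≤ G i := fun i => (abs_nonneg _).trans ((hP i).bdd 0 0)
  have hM0 : 0 ≤ M := Finset.sum_nonneg fun i _ => add_nonneg (hG0 i) (abs_nonneg _)
  have hbasel : ∀ t t', ‖base t - base t'‖ ≤ M * |t - t'| := by
    intro t t'
    refine (norm_le_sum _).trans ?_
    rw [hM, Finset.sum_mul]
    refine Finset.sum_le_sum fun i _ => ?_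
    by_cases hi : mid i
    · have : (base t - base t') i = z i t - z i t' := by simp [hbase, hi]
      rw [this]
      exact hzlip i hi t t'
    · have : (base t - base t') i = 0 := by simp [hbase, hi]
      rw [this, abs_zero]
      exact mul_nonneg (add_nonneg (hG0 i) (abs_nonneg _)) (abs_nonneg _)
  have hflip : ∀ j, LipschitzWith (K * Real.toNNReal (M + 1))
      (fun w : ℝ × ℝ => f j w.1 w.2) := by
    intro j
    refine LipschitzWith.of_dist_le_mul fun w w' => ?_
    have h1 := hK.dist_le_mul (base w.1 + w.2 • EuclideanSpace.single j (1 : ℝ))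
      (base w'.1 + w'.2 • EuclideanSpace.single j (1 : ℝ))
    have h2 : dist (f j w.1 w.2) (f j w'.1 w'.2) ≤
        dist (Z (base w.1 + w.2 • EuclideanSpace.single j (1 : ℝ)))
          (Z (base w'.1 + w'.2 • EuclideanSpace.single j (1 : ℝ))) := by
      rw [dist_eq_norm, dist_eq_norm]
      exact PiLp.norm_apply_le (Z (base w.1 + w.2 • EuclideanSpace.single j (1 : ℝ)) -
        Z (base w'.1 + w'.2 • EuclideanSpace.single j (1 : ℝ))) j
    have h3 : dist (base w.1 + w.2 • EuclideanSpace.single j (1 : ℝ))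
        (base w'.1 + w'.2 • EuclideanSpace.single j (1 : ℝ)) ≤ (M + 1) * dist w w' := by
      rw [dist_eq_norm]
      have e1 : base w.1 + w.2 • EuclideanSpace.single j (1 : ℝ) -
          (base w'.1 + w'.2 • EuclideanSpace.single j (1 : ℝ)) =
          (base w.1 - base w'.1) + (w.2 - w'.2) • EuclideanSpace.single j (1 : ℝ) := by
        rw [sub_smul]; abel
      rw [e1]
      refine (norm_add_le _ _).trans ?_
      rw [norm_smul, PiLp.norm_single, norm_one, mul_one, dist_eq_norm]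
      have k1 : ‖w.1 - w'.1‖ ≤ ‖w - w'‖ := norm_fst_le (w - w')
      have k2 : ‖w.2 - w'.2‖ ≤ ‖w - w'‖ := norm_snd_le (w - w')
      have k3 := hbasel w.1 w'.1
      rw [Real.norm_eq_abs] at k1
      have k4 : M * |w.1 - w'.1| ≤ M * ‖w - w'‖ := mul_le_mul_of_nonneg_left k1 hM0
      linarith
    refine h2.trans (h1.trans ?_)
    push_cast
    rw [Real.coe_toNNReal _ (by positivity), mul_assoc]
    exact mul_le_mul_of_nonneg_left h3 hK0
  have hfb : ∀ j t y, |f j t y| ≤ B := fun j t y =>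
    (coord_le (Z (base t + y • EuclideanSpace.single j (1 : ℝ))) j).trans (hB _)
  have hZz : ∀ (j : Fin n) (x x' : EuclideanSpace ℝ (Fin n)), |Z x j - Z x' j| ≤ K * ‖x - x'‖ := by
    intro j x x'
    have h1 := hK.dist_le_mul x x'
    rw [dist_eq_norm, dist_eq_norm] at h1
    exact (coord_le (Z x - Z x') j).trans h1
  have hfy : ∀ j t x y, |f j t x - f j t y| ≤ (K : ℝ) * |x - y| := by
    intro j t x y
    refine (hZz j _ _).trans ?_
    have e1 : base t + x • EuclideanSpace.single j (1 : ℝ) -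
        (base t + y • EuclideanSpace.single j (1 : ℝ)) =
        (x - y) • EuclideanSpace.single j (1 : ℝ) := by
      rw [sub_smul]; abel
    rw [e1, norm_smul, PiLp.norm_single, norm_one, mul_one, Real.norm_eq_abs]
  have hclose : ∀ j, ¬ mid j → ∀ t ∈ Icc (0 : ℝ) q, |f j t (Γ t j) - Z (Γ t) j| ≤ κ / 4 := by
    intro j hj t ht
    set x' : EuclideanSpace ℝ (Fin n) :=
      WithLp.toLp 2 (fun i => if mid i ∨ i = j then Γ t i else 0) with hx'
    have e0 : Z (Γ t) j = Z x' j := by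
      refine hZJ j hj _ _ (fun i hi => ?_) ?_
      · simp [hx', hi]
      · simp [hx']
    rw [e0]
    refine (hZz j _ _).trans ?_
    have h1 : ‖base t + Γ t j • EuclideanSpace.single j (1 : ℝ) - x'‖ ≤ n * ε1 := by
      refine (norm_le_sum _).trans ?_
      have h2 : ∀ i ∈ (Finset.univ : Finset (Fin n)),
          |(base t + Γ t j • EuclideanSpace.single j (1 : ℝ) - x') i| ≤ ε1 := by
        intro i _
        by_cases hi : mid i
        · have hij : i ≠ j := fun h => hj (h ▸ hi)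
          have : (base t + Γ t j • EuclideanSpace.single j (1 : ℝ) - x') i =
              z i t - Γ t i := by
            simp [hbase, hx', hi, hij]
          rw [this]
          exact (hcz i hi).2.2.2.2.1 t ht
        · have : (base t + Γ t j • EuclideanSpace.single j (1 : ℝ) - x') i = 0 := by
            by_cases hij : i = j
            · subst hij
              simp [hbase, hx', hi]
            · simp [hbase, hx', hi, hij]
          rw [this, abs_zero]
          exact hε10.le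
      have h3 := Finset.sum_le_card_nsmul _ _ _ h2
      rw [Finset.card_univ, Fintype.card_fin, nsmul_eq_mul] at h3
      exact h3
    have h4 : ε1 ≤ κ / (4 * ((K : ℝ) + 1) * (n + 1)) := min_le_right _ _
    rw [le_div_iff₀ (by positivity)] at h4
    have h5 : (K : ℝ) * ‖base t + Γ t j • EuclideanSpace.single j (1 : ℝ) - x'‖ ≤
        K * (n * ε1) := mul_le_mul_of_nonneg_left h1 hK0
    refine h5.trans ?_
    have h6 : 0 ≤ (n : ℝ) * ε1 := by positivity
    have h7 : 0 ≤ (K : ℝ) * ε1 := by positivity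
    nlinarith
  have hlast : ∀ j, ∃ (cl : ℝ) (zl : ℝ → ℝ), ¬ mid j → |cl| ≤ κ ∧ zl 0 = p j ∧
      Sol (f j) cl zl ∧ zl q = p j + m j := by
    intro j
    by_cases hj : mid j
    · exact ⟨0, fun _ => 0, fun h => absurd hj h⟩
    obtain ⟨cl, hcl, zl, hzl0, hzl, hzlq⟩ := closing_scalar (hflip j) (hfb j) (Ly := K) hK0
      (hfy j) hκ0 hq1
      (y := fun t => Γ t j) (y' := fun t => Z (Γ t) j) (x := p j)
      (fun t => coord_deriv (hΓ t) j) (by simp [hΓ0]) (hclose j hj) (x1 := p j + m j)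
      ((hm j).le.trans hη1.2.2)
    exact ⟨cl, zl, fun _ => ⟨hcl, hzl0, hzl, hzlq⟩⟩
  choose cl zl hczl using hlast
  set Γc : ℝ → EuclideanSpace ℝ (Fin n) := fun t =>
    WithLp.toLp 2 (fun i => if mid i then z i t else zl i t) with hΓc
  set cv : EuclideanSpace ℝ (Fin n) :=
    WithLp.toLp 2 (fun i => if mid i then c i else cl i) with hcv
  refine hδ cv ?_ p Γc ?_ ?_ q (by linarith) m ?_
  · refine (norm_le_sum _).trans ?_
    have h2 : ∀ i ∈ (Finset.univ : Finset (Fin n)), |cv i| ≤ κ := by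
      intro i _
      by_cases hi : mid i
      · simp only [hcv, hi, if_true]
        exact (hcz i hi).1.trans (min_le_left _ _)
      · simp only [hcv, hi, if_false]
        exact (hczl i hi).1
    have h3 := Finset.sum_le_card_nsmul _ _ _ h2
    rw [Finset.card_univ, Fintype.card_fin, nsmul_eq_mul] at h3
    refine h3.trans ?_
    rw [hκ, mul_div_assoc', div_le_iff₀ (by positivity)]
    nlinarith
  · ext i
    by_cases hi : mid i
    · simp only [hΓc, hi, if_true]
      exact (hcz i hi).2.2.1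
    · simp only [hΓc, hi, if_false]
      exact (hczl i hi).2.1
  · intro t
    have h1 : Z (Γc t) + cv = WithLp.toLp 2 (fun i => if mid i then g i t (z i t) + c i
        else f i t (zl i t) + cl i) := by
      ext i
      by_cases hi : mid i
      · have e1 := hgZ i hi (Γc t) t (by
          simp only [hΓc, hmid0, if_true]
          exact ((hcz 0 hmid0).2.2.2.2.2 rfl).2 t)
        have e2 : (Γc t) i = z i t := by simp only [hΓc, hi, if_true]
        rw [e2] at e1
        simp only [hcv, hi, if_true, PiLp.add_apply]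
        rw [e1]
      · have e1 : Z (Γc t) i = Z (base t + zl i t • EuclideanSpace.single i (1 : ℝ)) i := by
          refine hZJ i hi _ _ (fun j hj => ?_) ?_
          · have hij : j ≠ i := fun h => hi (h ▸ hj)
            simp [hbase, hΓc, hj, hij]
          · simp [hbase, hΓc, hi]
        simp only [hcv, hf, hi, if_false, PiLp.add_apply]
        rw [e1]
    rw [h1]
    refine deriv_of_coord (y := fun i t => if mid i then z i t else zl i t) fun i => ?_
    by_cases hi : mid i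
    · simp only [hi, if_true]
      exact (hcz i hi).2.1 t
    · simp only [hi, if_false]
      exact (hczl i hi).2.2.1 t
  · ext i
    by_cases hi : mid i
    · simp only [hΓc, hi, if_true, PiLp.add_apply, lat]
      exact (hcz i hi).2.2.2.1
    · simp only [hΓc, hi, if_false, PiLp.add_apply, lat]
      exact (hczl i hi).2.2.2

end Clo
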