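import Pool.Agent.Lib.MP_2f875b_anE.Ode

/-! # Scalar nonautonomous equations `y' = f(t, y) + c` -/

set_option autoImplicit false

open Set Filter Topology NNReal

namespace Clo

/-- `y' = f(t, y) + c` on the whole line. -/
def Sol (f : ℝ → ℝ → ℝ) (c : ℝ) (y : ℝ → ℝ) : Prop := ∀ t, HasDerivAt y (f t (y t) + c) t

variable {f : ℝ → ℝ → ℝ} {L : ℝ≥0} {G : ℝ}

theorem Sol.cont {c : ℝ} {y : ℝ → ℝ} (hy : Sol f c y) : Continuous y :=
  continuous_iff_continuousAt.2 fun t => (hy t).continuousAt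

theorem lip_y (hf : LipschitzWith L (fun q : ℝ × ℝ => f q.1 q.2)) (t : ℝ) (c : ℝ) :
    LipschitzWith L (fun y => f t y + c) := by
  refine LipschitzWith.of_dist_le_mul fun x y => ?_
  have h1 := hf.dist_le_mul (t, x) (t, y)
  rw [dist_add_right]
  refine h1.trans (le_of_eq ?_)
  rw [Prod.dist_eq]
  simp [dist_nonneg]

theorem abs_lip (hf : LipschitzWith L (fun q : ℝ × ℝ => f q.1 q.2)) (t x y : ℝ) :
    |f t x - f t y| ≤ L * |x - y| := by
  have h1 := (lip_y hf t 0).dist_le_mul x y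
  simpa [Real.dist_eq] using h1

theorem sol_exists (hf : LipschitzWith L (fun q : ℝ × ℝ => f q.1 q.2))
    (hG : ∀ t y, |f t y| ≤ G) (c t0 y0 : ℝ) : ∃ y, y t0 = y0 ∧ Sol f c y := by
  have h1 : LipschitzWith (max 0 L) (fun q : ℝ × ℝ => ((1 : ℝ), f q.1 q.2 + c)) := by
    refine (LipschitzWith.const (1 : ℝ)).prodMk ?_
    refine LipschitzWith.of_dist_le_mul fun a b => ?_
    have h2 := hf.dist_le_mul a b
    rwa [dist_add_right]
  have h2 : ∀ q : ℝ × ℝ, ‖((1 : ℝ), f q.1 q.2 + c)‖ ≤ 1 + (G + |c|) := by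
    intro q
    rw [Prod.norm_def]
    have hG0 : 0 ≤ G := (abs_nonneg _).trans (hG 0 0)
    refine max_le ?_ ?_
    · simp only [norm_one]
      have := abs_nonneg c
      linarith
    · show ‖f q.1 q.2 + c‖ ≤ _
      rw [Real.norm_eq_abs]
      have := abs_add_le (f q.1 q.2) c
      have := hG q.1 q.2
      linarith
  obtain ⟨Z, hZ0, hZ⟩ := exists_global h1 h2 (t0, y0)
  have hf1 : ∀ t, HasDerivAt (fun t => (Z t).1) 1 t := fun t => (hZ t).fst
  have hs : ∀ t, HasDerivAt (fun t => (Z t).2) (f (Z t).1 (Z t).2 + c) t := fun t => (hZ t).snd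
  have h1' : ∀ t, (Z t).1 = t0 + t := by
    intro t
    have hd : ∀ t, HasDerivAt (fun t => (Z t).1 - t) 0 t := fun t => by
      have h := (hf1 t).fun_sub (hasDerivAt_id' t)
      rwa [sub_self] at h
    have := is_const_of_deriv_eq_zero (fun t => (hd t).differentiableAt)
      (fun t => (hd t).deriv) t 0
    simp only [hZ0] at this
    linarith
  refine ⟨fun t => (Z (t - t0)).2, by simp [hZ0], fun t => ?_⟩
  have h3 := (hs (t - t0)).comp_sub_const t t0
  rw [h1' (t - t0), add_sub_cancel] at h3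
  exact h3

theorem Sol.unique (hf : LipschitzWith L (fun q : ℝ × ℝ => f q.1 q.2)) {c t0 : ℝ}
    {y z : ℝ → ℝ} (hy : Sol f c y) (hz : Sol f c z) (h0 : y t0 = z t0) : y = z :=
  ODE_solution_unique_univ (v := fun t y => f t y + c) (s := fun _ => univ) (K := L) (t₀ := t0)
    (fun t => (lip_y hf t c).lipschitzOnWith) (fun t => ⟨hy t, trivial⟩) (fun t => ⟨hz t, trivial⟩) h0

theorem Sol.lt (hf : LipschitzWith L (fun q : ℝ × ℝ => f q.1 q.2)) {c t0 : ℝ}
    {y z : ℝ → ℝ} (hy : Sol f c y) (hz : Sol f c z) (h0 : y t0 < z t0) (t : ℝ) : y t < z t := by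
  by_contra hcon
  push Not at hcon
  obtain ⟨s, hs⟩ := mem_range_of_exists_le_of_exists_ge (hz.cont.sub hy.cont)
    ⟨t, show z t - y t ≤ 0 by linarith⟩ ⟨t0, show 0 ≤ z t0 - y t0 by linarith⟩
  have h1 : y s = z s := by
    have : z s - y s = 0 := hs
    linarith
  have h2 := Sol.unique hf hy hz h1
  rw [h2] at h0
  exact lt_irrefl _ h0

/-- Forward comparison. -/
theorem Sol.comp {c c' a : ℝ} {y z : ℝ → ℝ} (hy : Sol f c y) (hz : Sol f c' z) (hc : c < c')
    (h0 : y a ≤ z a) {t : ℝ} (ht : a ≤ t) : y t ≤ z t := by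
  refine image_le_of_deriv_right_lt_deriv_boundary' (f := y) (B := z) (a := a) (b := t)
    (f' := fun t => f t (y t) + c) (B' := fun t => f t (z t) + c')
    (fun t _ => (hy t).continuousAt.continuousWithinAt)
    (fun t _ => (hy t).hasDerivWithinAt) h0
    (fun t _ => (hz t).continuousAt.continuousWithinAt)
    (fun t _ => (hz t).hasDerivWithinAt) ?_ ⟨ht, le_rfl⟩
  intro s _ hs
  rw [hs]
  linarith

/-- Backward comparison. -/
theorem Sol.comp_back (hf : LipschitzWith L (fun q : ℝ × ℝ => f q.1 q.2))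
    (hG : ∀ t y, |f t y| ≤ G) {c c' b : ℝ} {y z : ℝ → ℝ} (hy : Sol f c y) (hz : Sol f c' z)
    (hc : c < c') (h0 : z b ≤ y b) {t : ℝ} (ht : t ≤ b) : z t ≤ y t := by
  by_contra hcon
  push Not at hcon
  obtain ⟨w, hw0, hw⟩ := sol_exists hf hG c t (z t)
  have h1 : y b < w b := Sol.lt hf hy hw (by rw [hw0]; exact hcon) b
  have h2 : w b ≤ z b := Sol.comp hw hz hc hw0.le ht
  linarith

/-- A perturbed solution which ends on another unperturbed solution stays between. -/
theorem Sol.between (hf : LipschitzWith L (fun q : ℝ × ℝ => f q.1 q.2))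
    (hG : ∀ t y, |f t y| ≤ G) {c a b : ℝ} {y u z : ℝ → ℝ} (hy : Sol f 0 y) (hu : Sol f 0 u)
    (hz : Sol f c z) (h0 : z a = y a) (hb : z b = u b) {t : ℝ} (ht : t ∈ Icc a b) :
    |z t - y t| ≤ |u t - y t| := by
  rcases lt_trichotomy c 0 with hc | hc | hc
  · have h1 : z t ≤ y t := Sol.comp hz hy hc h0.le ht.1
    have h2 : u t ≤ z t := Sol.comp_back hf hG hz hu hc hb.ge ht.2
    rw [abs_of_nonpos (by linarith), abs_of_nonpos (by linarith)]
    linarith
  · subst hc
    have h1 := Sol.unique hf hz hy h0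
    rw [h1, sub_self, abs_zero]
    exact abs_nonneg _
  · have h1 : y t ≤ z t := Sol.comp hy hz hc h0.ge ht.1
    have h2 : z t ≤ u t := Sol.comp_back hf hG hu hz hc hb.le ht.2
    rw [abs_of_nonneg (by linarith), abs_of_nonneg (by linarith)]
    linarith

/-- Gronwall. -/
theorem Sol.gron (hf : LipschitzWith L (fun q : ℝ × ℝ => f q.1 q.2)) {c a : ℝ}
    {y z : ℝ → ℝ} (hy : Sol f c y) (hz : Sol f c z) {t : ℝ} (ht : a ≤ t) :
    |y t - z t| ≤ |y a - z a| * Real.exp (L * (t - a)) := by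
  have := dist_le_of_trajectories_ODE (v := fun t y => f t y + c) (K := L) (f := y) (g := z)
    (a := a) (b := t) (δ := |y a - z a|) (fun s => lip_y hf s c)
    (fun s _ => (hy s).continuousAt.continuousWithinAt)
    (fun s _ => (hy s).hasDerivWithinAt)
    (fun s _ => (hz s).continuousAt.continuousWithinAt)
    (fun s _ => (hz s).hasDerivWithinAt)
    (by rw [Real.dist_eq]) t ⟨ht, le_rfl⟩
  rwa [Real.dist_eq] at this

theorem Sol.close (hf : LipschitzWith L (fun q : ℝ × ℝ => f q.1 q.2)) {c c' : ℝ}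
    {S S' : ℝ → ℝ} (hS : Sol f c S) (hS' : Sol f c' S') (h0 : S 0 = S' 0) {T : ℝ} (hT : 0 ≤ T) :
    |S T - S' T| ≤ gronwallBound 0 (L : ℝ) |c - c'| T := by
  have := dist_le_of_approx_trajectories_ODE (v := fun t y => f t y + c)
    (K := L) (f := S) (g := S') (f' := fun t => f t (S t) + c)
    (g' := fun t => f t (S' t) + c') (a := 0) (b := T) (δ := 0) (εf := 0)
    (εg := |c - c'|) (fun s => lip_y hf s c)
    (fun t _ => (hS t).continuousAt.continuousWithinAt)
    (fun t _ => (hS t).hasDerivWithinAt)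
    (fun t _ => by simp)
    (fun t _ => (hS' t).continuousAt.continuousWithinAt)
    (fun t _ => (hS' t).hasDerivWithinAt)
    (fun t _ => by rw [dist_add_left, dist_comm, Real.dist_eq])
    (by rw [h0, dist_self]) T ⟨hT, le_rfl⟩
  rwa [Real.dist_eq, zero_add, sub_zero] at this

theorem Sol.cont_c (hf : LipschitzWith L (fun q : ℝ × ℝ => f q.1 q.2)) {S : ℝ → ℝ → ℝ}
    (hS : ∀ c, Sol f c (S c)) {x : ℝ} (h0 : ∀ c, S c 0 = x) {T : ℝ} (hT : 0 ≤ T) :
    Continuous fun c => S c T := by
  rw [continuous_iff_continuousAt]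
  intro c
  rw [ContinuousAt, tendsto_iff_dist_tendsto_zero]
  have h1 : Tendsto (fun c' : ℝ => gronwallBound 0 (L : ℝ) |c' - c| T) (𝓝 c) (𝓝 0) := by
    have h2 := (gronwallBound_continuous_ε 0 (L : ℝ) T).tendsto 0
    rw [gronwallBound_ε0_δ0] at h2
    refine h2.comp ?_
    have : Continuous fun c' : ℝ => |c' - c| := by fun_prop
    simpa using this.tendsto c
  refine squeeze_zero (fun _ => dist_nonneg) (fun c' => ?_) h1
  rw [Real.dist_eq]
  exact Sol.close hf (hS c') (hS c) ((h0 c').trans (h0 c).symm) hT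

/-- Closing: the constant `c` can be chosen so that the solution of the perturbed equation ends at
a prescribed point close to the end of `y`. -/
theorem closing_scalar (hf : LipschitzWith L (fun q : ℝ × ℝ => f q.1 q.2))
    (hG : ∀ t y, |f t y| ≤ G) {Ly : ℝ} (hL0 : 0 ≤ Ly)
    (hfy : ∀ t x y, |f t x - f t y| ≤ Ly * |x - y|)
    {κ T x : ℝ} (hκ : 0 < κ) (hT : 1 ≤ T) {y y' : ℝ → ℝ}
    (hy : ∀ t, HasDerivAt y (y' t) t) (hy0 : y 0 = x)
    (hclose : ∀ t ∈ Icc 0 T, |f t (y t) - y' t| ≤ κ / 4) {x1 : ℝ}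
    (hx1 : |y T - x1| ≤ κ / (4 * (Ly + 1))) :
    ∃ c, |c| ≤ κ ∧ ∃ z, z 0 = x ∧ Sol f c z ∧ z T = x1 := by
  choose S hS0 hS using fun c => sol_exists hf hG c 0 x
  set μ : ℝ := κ / (4 * (Ly + 1)) with hμ
  have hμ0 : 0 < μ := by positivity
  have hμ1 : (Ly + 1) * μ = κ / 4 := by
    rw [hμ]; field_simp
  have hcont := Sol.cont_c hf hS hS0 (T := T) (by linarith)
  have hyc : ∀ t, ContinuousAt y t := fun t => (hy t).continuousAt
  -- upper
  have hup : y T + μ ≤ S κ T := by
    have h1 : y (T - 1) ≤ S κ (T - 1) := by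
      refine image_le_of_deriv_right_lt_deriv_boundary' (f := y) (B := S κ) (a := 0) (b := T - 1)
        (f' := y') (B' := fun t => f t (S κ t) + κ)
        (fun t _ => (hyc t).continuousWithinAt)
        (fun t _ => (hy t).hasDerivWithinAt) (by rw [hy0, hS0])
        (fun t _ => (hS κ t).continuousAt.continuousWithinAt)
        (fun t _ => (hS κ t).hasDerivWithinAt) ?_ ⟨by linarith, le_rfl⟩
      intro t ht hs
      have h2 := (abs_le.1 (hclose t ⟨ht.1, by linarith [ht.2]⟩)).1
      rw [← hs]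
      linarith
    have h3 := image_le_of_deriv_right_lt_deriv_boundary'
      (f := fun t => y t + μ * (t - (T - 1))) (B := S κ) (a := T - 1) (b := T)
      (f' := fun t => y' t + μ * 1) (B' := fun t => f t (S κ t) + κ)
      (fun t _ => ((hyc t).add (by fun_prop)).continuousWithinAt)
      (fun t _ => ((hy t).fun_add (((hasDerivAt_id' t).sub_const _).const_mul μ)).hasDerivWithinAt)
      (by simpa using h1)
      (fun t _ => (hS κ t).continuousAt.continuousWithinAt)
      (fun t _ => (hS κ t).hasDerivWithinAt) (fun t ht hs => by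
        have h2 := (abs_le.1 (hclose t ⟨by linarith [ht.1], by linarith [ht.2]⟩)).1
        have h4 := (abs_le.1 (hfy t (S κ t) (y t))).1
        have h5 : |S κ t - y t| ≤ μ := by
          rw [← hs, add_sub_cancel_left, abs_of_nonneg (mul_nonneg hμ0.le (by linarith [ht.1]))]
          have : t - (T - 1) ≤ 1 := by linarith [ht.2]
          nlinarith
        have h6 : Ly * |S κ t - y t| ≤ Ly * μ := mul_le_mul_of_nonneg_left h5 hL0
        nlinarith) (x := T) ⟨by linarith, le_rfl⟩
    have h7 : μ * (T - (T - 1)) = μ := by ring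
    simp only [h7] at h3
    exact h3
  -- lower
  have hlo : S (-κ) T ≤ y T - μ := by
    have h1 : S (-κ) (T - 1) ≤ y (T - 1) := by
      refine image_le_of_deriv_right_lt_deriv_boundary' (B := y) (f := S (-κ)) (a := 0)
        (b := T - 1) (B' := y') (f' := fun t => f t (S (-κ) t) + (-κ))
        (fun t _ => (hS (-κ) t).continuousAt.continuousWithinAt)
        (fun t _ => (hS (-κ) t).hasDerivWithinAt) (by rw [hy0, hS0])
        (fun t _ => (hyc t).continuousWithinAt)
        (fun t _ => (hy t).hasDerivWithinAt) ?_ ⟨by linarith, le_rfl⟩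
      intro t ht hs
      have h2 := (abs_le.1 (hclose t ⟨ht.1, by linarith [ht.2]⟩)).2
      rw [hs]
      linarith
    have h3 := image_le_of_deriv_right_lt_deriv_boundary'
      (B := fun t => y t - μ * (t - (T - 1))) (f := S (-κ)) (a := T - 1) (b := T)
      (B' := fun t => y' t - μ * 1) (f' := fun t => f t (S (-κ) t) + (-κ))
      (fun t _ => (hS (-κ) t).continuousAt.continuousWithinAt)
      (fun t _ => (hS (-κ) t).hasDerivWithinAt)
      (by simpa using h1)
      (fun t _ => ((hyc t).sub (by fun_prop)).continuousWithinAt)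
      (fun t _ => ((hy t).fun_sub (((hasDerivAt_id' t).sub_const _).const_mul μ)).hasDerivWithinAt)
      (fun t ht hs => by
        have h2 := (abs_le.1 (hclose t ⟨by linarith [ht.1], by linarith [ht.2]⟩)).2
        have h4 := (abs_le.1 (hfy t (S (-κ) t) (y t))).2
        have h5 : |S (-κ) t - y t| ≤ μ := by
          rw [hs, sub_sub_cancel_left, abs_neg,
            abs_of_nonneg (mul_nonneg hμ0.le (by linarith [ht.1]))]
          have : t - (T - 1) ≤ 1 := by linarith [ht.2]
          nlinarith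
        have h6 : Ly * |S (-κ) t - y t| ≤ Ly * μ := mul_le_mul_of_nonneg_left h5 hL0
        nlinarith) (x := T) ⟨by linarith, le_rfl⟩
    have h7 : μ * (T - (T - 1)) = μ := by ring
    simp only [h7] at h3
    exact h3
  obtain ⟨h8, h9⟩ := abs_le.1 hx1
  have := intermediate_value_Icc (a := -κ) (b := κ) (by linarith) hcont.continuousOn
  obtain ⟨c, hc, hc2⟩ := this (show x1 ∈ Icc (S (-κ) T) (S κ T) from ⟨by linarith, by linarith⟩)
  exact ⟨c, abs_le.2 hc, S c, hS0 c, hS c, hc2⟩

end Clo
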